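import Pool.Agent.H6.S1.Fld
import Pool.Agent.H18.PN.Rst

/-!
# The sheet `Sh1`: full rate, `u` steep

`partA_one`: the first jet of the place `2` over a target of slope one, full rate. `sh1_sA`: the field
`sA` of `Sh1`. `sh1_of`: `Sh1` from its field `tA`.
-/

set_option autoImplicit false

namespace Pool.S16

open Real
open Pool.GEN Pool.PKG Pool.ALT Pool.LA91 Pool.ASM Pool.PN18

/-- **The first jet of `u`, full rate**, a target of smaller slope, any kinds of the two. -/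
theorem partA_ba {κ : ℕ → Kg} (hκ : ∀ l < 2, κ l = .one) :
    PartA 2 κ (fun Sl => 1 < Sl 2 ∧ 0 < Sl 3 ∧ Sl 3 < Sl 2) (fun _ => AdmL 4)
      (fun Sl => Sl 3 * Real.log 2) := by
  refine ⟨BaX, inferInstance, BaQ 4, aePG_ba 4, her_ba 4, fun h h0 h1 Sl hS => ?_⟩
  have H := f1us_ba (r := 2) (by norm_num) h0 h1 hκ hS.1 hS.2.1 hS.2.2
  have e : (ZfR 2 Sl : PropZ 4 (PosR × ℕ)) =
      fun b => FulR (AdmL 4) (Sl 3 * Real.log 2) b.1 b.2 := by
    show (fun b : PosR × ℕ => FulR (AdmN 2) (Sl 3 * Real.log 2) b.1 b.2) = _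
    rw [admN_eq]
  rw [e] at H
  exact H

/-- Fewer slopes. -/
theorem partA_mono {r : ℕ} {κ : ℕ → Kg} {Φ Φ' : (ℕ → ℝ) → Prop}
    {Adm : (ℕ → ℝ) → AltJ → PropW 4} {β : (ℕ → ℝ) → ℝ} (H : PartA r κ Φ Adm β)
    (h : ∀ Sl, Φ' Sl → Φ Sl) : PartA r κ Φ' Adm β := by
  obtain ⟨ι, hc, Q, hQ, hh, H⟩ := H
  exact ⟨ι, hc, Q, hQ, hh, fun h₁ h0 h1 Sl hS => H h₁ h0 h1 Sl (h Sl hS)⟩

/-- **The field `sA` of `Sh1`**: `u` steep, full rate. -/
theorem sh1_sA : PartA 2 (kg4 .one .one .stp .one) N1s (fun _ => AdmL 4)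
    (fun Sl => Sl 3 * Real.log 2) :=
  partA_mono (partA_ba fun l hl => by interval_cases l <;> rfl) fun Sl hS => by
    obtain ⟨-, -, h2, h3⟩ := hS
    exact ⟨by linarith, by rw [h3]; exact one_pos, by linarith⟩

/-- **The sheet `Sh1`** from its field `tA`. -/
theorem sh1_of (tA : PartV (kg4 .one .one .thin .one) N1t (fun _ => AdmL 4)
    (fun Sl => Sl 3 * Real.log 2)) :
    Sh1 (fun _ => AdmL 4) (fun Sl => Sl 3 * Real.log 2) :=
  ⟨sh1_sA, sh1_sC, tA, sh1_tB⟩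

end Pool.S16
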