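import Pool.Agent.H65.STB.Ncl
import Pool.Agent.H82.STB.Ins
import Pool.Agent.H39.NV.Rem
import Pool.Agent.H2.GEN.ChS

/-!
# The input of the jets for a target of slope one: all the balls from the first one

`upt`: a polynomial of the time as a polynomial of the position. `qG`: the value of a place minus a
closed polynomial along a line. `vis_val`: the value is visible. `n1_ext`: the output `N1O` with
`b = 1` for a list of balls, from the output for the first ball.
-/

set_option autoImplicit false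

namespace Pool.S16

open Finset Real MvPolynomial
open Pool.Agent.H49.Ent Pool.Agent.H32.Dense Pool.STK Pool.KA Pool.KSAT Pool.K2S Pool.PB Pool.S6C
open Pool.GEN Pool.CHT Pool.NVX
open Pool.STB (V3 Po Bx)
open Pool.STB77 (Inc cos cos_slam)
open Pool.STB82 (yv lnA lnP tmP eval_aevalP lnA_deg lnP_deg lnP_lnA lnP_eval)
open Pool.STB65 (InpF N1O)
open Pool.PB.Trl (rt rt_mem t_rt)
open Pool.FLF (Fam.sub)

variable {m J : ℕ}

/-- A polynomial of the time as a polynomial of the position. -/
noncomputable def upt (K : ℕ) (q : Polynomial ℝ) : Po :=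
  ∑ i ∈ range (K + 1), C (q.coeff i) * X 0 ^ i

theorem upt_eval {K : ℕ} {q : Polynomial ℝ} (hq : q.natDegree ≤ K) (z : V3) :
    eval z (upt K q) = q.eval (z 0) := by
  unfold upt
  rw [map_sum, Polynomial.eval_eq_sum_range' (Nat.lt_succ_of_le hq)]
  refine Finset.sum_congr rfl fun i _ => ?_
  rw [map_mul, map_pow, eval_C, eval_X]

theorem upt_deg (K : ℕ) (q : Polynomial ℝ) : (upt K q).totalDegree ≤ K := by
  unfold upt
  refine totalDegree_finsetSum_le fun i hi => ?_
  refine (totalDegree_mul _ _).trans ?_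
  rw [totalDegree_C, zero_add]
  refine (totalDegree_pow _ _).trans ?_
  rw [totalDegree_X, mul_one]
  exact Nat.lt_succ_iff.1 (mem_range.1 hi)

/-- The value of a place minus a closed polynomial, as a polynomial of the time. -/
noncomputable def QG {F : Fam m J} (k : Fin m) (P : LnT F → MvPolynomial (Option (Fin m)) ℝ)
    (s : LnT F) : Polynomial ℝ := lnA s (some k) - aeval (lnA s) (P s)

/-- The value of a place minus a closed polynomial, in natural units, as a polynomial of the
relative time. -/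
noncomputable def qG {F : Fam m J} (w g : ℕ) (k : Fin m)
    (P : LnT F → MvPolynomial (Option (Fin m)) ℝ) (s : LnT F) : Polynomial ℝ :=
  Polynomial.C (2 ^ g) * (lnP w s (some k) - aeval (lnP w s) (P s))

theorem QG_deg {F : Fam m J} (k : Fin m) {K : ℕ}
    {P : LnT F → MvPolynomial (Option (Fin m)) ℝ} (hP : ∀ s, (P s).totalDegree ≤ K) (s : LnT F) :
    (QG k P s).natDegree ≤ K + 1 := by
  unfold QG
  refine (Polynomial.natDegree_sub_le _ _).trans (max_le ((lnA_deg s _).trans (by omega)) ?_)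
  have h1 := natDegree_aeval_mul (P s) (lnA s) (E := 1) (lnA_deg s) (hP s)
  omega

theorem qG_deg {F : Fam m J} (w g : ℕ) (k : Fin m) {K : ℕ}
    {P : LnT F → MvPolynomial (Option (Fin m)) ℝ} (hP : ∀ s, (P s).totalDegree ≤ K) (s : LnT F) :
    (qG w g k P s).natDegree ≤ K + 1 := by
  unfold qG
  refine (Polynomial.natDegree_C_mul_le _ _).trans ?_
  refine (Polynomial.natDegree_sub_le _ _).trans (max_le ((lnP_deg w s _).trans (by omega)) ?_)
  have h1 := natDegree_aeval_mul (P s) (lnP w s) (E := 1) (lnP_deg w s) (hP s)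
  omega

theorem qG_eval {F : Fam m J} (w g : ℕ) (k : Fin m)
    (P : LnT F → MvPolynomial (Option (Fin m)) ℝ) (s : LnT F) (τ : ℝ) :
    (qG w g k P s).eval τ = 2 ^ g * (QG k P s).eval (((s.2.2 : ℝ) + τ) / 2 ^ w) := by
  unfold qG QG
  rw [Polynomial.eval_mul, Polynomial.eval_C, Polynomial.eval_sub, eval_aevalP, lnP_lnA,
    Polynomial.eval_sub, eval_aevalP]
  congr 3
  congr 1
  funext o
  exact lnP_lnA w s τ o

theorem QG_val (F : Fam m J) (w : ℕ) (k : Fin m)
    (P : LnT F → MvPolynomial (Option (Fin m)) ℝ) (ω : F.Ω) :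
    (QG k P (slam F w ω)).eval (F.t ω) = F.x ω k - eval (bt F ω) (P (slam F w ω)) := by
  unfold QG
  rw [Polynomial.eval_sub, eval_aevalP]
  have h3 : ∀ o, (lnA (slam F w ω) o).eval (F.t ω) = bt F ω o := by
    intro o
    cases o with
    | none =>
      show (Polynomial.X : Polynomial ℝ).eval (F.t ω) = F.t ω
      exact Polynomial.eval_X
    | some k =>
      show (Polynomial.C _ + Polynomial.C _ * Polynomial.X).eval (F.t ω) = _
      simp only [Polynomial.eval_add, Polynomial.eval_mul, Polynomial.eval_C,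
        Polynomial.eval_X]
      show F.u ω k + F.d ω k * F.t ω = F.u ω k + F.t ω * F.d ω k
      ring
  rw [h3]
  have h4 : (fun o => (lnA (slam F w ω) o).eval (F.t ω)) = bt F ω := funext h3
  rw [h4]
  rfl

/-- The relative time near the sample, as a time. -/
theorem tm_near (F : Fam m J) {w : ℕ} (hw : w ≤ J) (ω : F.Ω) (r : ℝ) :
    (((slam F w ω).2.2 : ℝ) + (rt F w ω + r)) / 2 ^ w = F.t ω + r / 2 ^ w := by
  have h1 := t_rt F hw ω
  rw [h1]
  ring

/-- **The value of the closed polynomial at the rounded point.** -/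
theorem vis_val (D : ℕ) : ∃ c₀ : ℕ, ∀ {m J : ℕ} {F : Fam m J} {c : ℕ → Fin m} {a w e X g₃ u : ℕ}
    {g : ℕ → ℕ} {B : F.Ω → Prop} {G : PtT F → ℕ → MvPolynomial (Option (Fin m)) ℝ}
    {H : LnT F → ℕ → MvPolynomial (Option (Fin m)) ℝ}
    {Z : PtT F → MvPolynomial (Option (Fin m)) ℝ}, Set.InjOn c (Set.Iio 4) →
    ChOK F c 3 (fun _ => D) a w e g B G H → (∀ y, (Z y).totalDegree ≤ D) →
    (∀ y, DepC c 3 (Z y)) →
    (∀ ω, B ω → ∀ b', NBx c (G (ptr F J ω)) g a (F.t ω) 3 b' → ∀ l < 3,
      |eval b' (pderiv (some (c l)) (Z (ptr F J ω)))| ≤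
        2 ^ (X + nlp (fun j => if j < 3 then g j else g₃) l 3)) →
    (∀ i < 4, max e X + (if i < 3 then g i else g₃) + u + c₀ ≤ J) → ∀ ω, B ω →
      |eval (bho J J (ptr F J ω)) (Z (ptr F J ω)) - eval (bt F ω) (Z (ptr F J ω))| ≤
        1 / 4 / 2 ^ (g₃ + u) := by
  obtain ⟨c₀, hc₀⟩ := near_cell 4 (fun _ => D)
  refine ⟨c₀, ?_⟩
  intro m J F c a w e X g₃ u g B G H Z hc hG hZd hZe hZ hJ ω hω
  have pw : ∀ {x y : ℕ}, x ≤ y → (2 : ℝ) ^ x ≤ 2 ^ y := fun h => pow_le_pow_right₀ (by norm_num) h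
  obtain ⟨G', hG'⟩ : ∃ G' : ℕ → MvPolynomial (Option (Fin m)) ℝ, G' = fun j =>
    if j < 3 then G (ptr F J ω) j else if j = 3 then Z (ptr F J ω) else 0 := ⟨_, rfl⟩
  have g1 : ∀ j < 3, G' j = G (ptr F J ω) j := fun j hj => by rw [hG']; exact if_pos hj
  have g2 : G' 3 = Z (ptr F J ω) := by rw [hG']; simp
  obtain ⟨g', hg'⟩ : ∃ g' : ℕ → ℕ, g' = fun j => if j < 3 then g j else g₃ := ⟨_, rfl⟩
  have k1 : ∀ j < 3, g' j = g j := fun j hj => by rw [hg']; exact if_pos hj
  have k2 : g' 3 = g₃ := by rw [hg']; simp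
  have hne : ∀ l < 3, c l ≠ c 3 := fun l hl h => by
    have h3 := hc (show l < 4 by omega) (show 3 < 4 by norm_num) h
    omega
  obtain ⟨x, hx⟩ : ∃ x : Option (Fin m) → ℝ, x = Function.update (bt F ω) (some (c 3))
    (eval (bt F ω) (Z (ptr F J ω))) := ⟨_, rfl⟩
  have x1 : x none = F.t ω := by
    rw [hx, Function.update_of_ne (by simp)]
    rfl
  have x2 : ∀ l < 3, x (some (c l)) = bt F ω (some (c l)) := fun l hl => by
    rw [hx, Function.update_of_ne (fun h => hne l hl (Option.some.inj h))]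
  have x3 : x (some (c 3)) = eval (bt F ω) (Z (ptr F J ω)) := by
    rw [hx, Function.update_self]
  have x4 : ∀ Q : MvPolynomial (Option (Fin m)) ℝ, DepC c 3 Q → eval x Q = eval (bt F ω) Q :=
    fun Q hQ => hQ _ _ x1 fun l hl => x2 l hl
  have d1 : ∀ l, (G' l).totalDegree ≤ D := by
    intro l
    rw [hG']
    show (if l < 3 then G (ptr F J ω) l else if l = 3 then Z (ptr F J ω) else 0).totalDegree ≤ D
    split_ifs
    · exact hG.degG _ l
    · exact hZd _
    · rw [totalDegree_zero]
      exact Nat.zero_le _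
  have d2 : ∀ l, DepC c l (G' l) := by
    intro l
    rw [hG']
    show DepC c l (if l < 3 then G (ptr F J ω) l else if l = 3 then Z (ptr F J ω) else 0)
    split_ifs with h h'
    · exact hG.depG _ l
    · rw [h']
      exact hZe _
    · intro b b' _ _
      rw [map_zero, map_zero]
  have hnl : ∀ i < 3, ∀ l < i, nlp g' l i = nlp g l i := by
    intro i hi l hl
    unfold nlp
    rw [k1 i hi]
    congr 1
    refine Finset.sup_congr rfl fun j hj => ?_
    exact k1 j (by have := (Finset.mem_Icc.1 hj).2; omega)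
  have hbx : ∀ i ≤ 3, ∀ b, NBx c G' g' a (x none) i b →
      NBx c (G (ptr F J ω)) g a (F.t ω) i b := by
    intro i hi b hb
    rw [x1] at hb
    refine ⟨hb.1, fun l hl => ?_⟩
    have h1 := hb.2 l hl
    rw [g1 l (by omega), k1 l (by omega)] at h1
    exact h1
  have hcell := (hc₀ (c := c) (G := G') (g := g') (a := a) (e := max e X) (J := J) (v := u)
    (x := x) hc d1 d2 (fun l hl => ?_) (fun i hi b hb l hl => ?_) (fun i hi => ?_) 3 (by norm_num)
    (bho J J (ptr F J ω)) ?_ (fun l hl => ?_)).2 (by norm_num)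
  · rw [g2, k2, x4 _ (hZe _)] at hcell
    exact hcell
  · rcases Nat.lt_or_ge l 3 with h | h
    · rw [g1 l h, k1 l h, x2 l h, x4 _ ((hG.depG _ l).mono h.le)]
      exact hG.pos ω hω l h
    · have : l = 3 := by omega
      subst this
      rw [g2, x4 _ (hZe _), x3, sub_self, abs_zero]
      positivity
  · rcases Nat.lt_or_ge i 3 with h | h
    · rw [g1 i h, hnl i h l hl]
      exact (hG.lip ω hω i h b (hbx i h.le b hb) l hl).trans
        (pw (Nat.add_le_add_right (le_max_left _ _) _))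
    · have : i = 3 := by omega
      subst this
      rw [g2, hg']
      exact (hZ ω hω b (hbx 3 le_rfl b hb) l hl).trans
        (pw (Nat.add_le_add_right (le_max_right _ _) _))
  · rw [hg']
    exact hJ i hi
  · rw [x1]
    rfl
  · rw [x2 l hl]
    exact Pool.PB.Trl.x_near F J ω (c l)

end Pool.S16
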