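import Pool.Agent.H6.S1.Ext

/-!
# The input of the jets for a target of slope one: all the balls from the first one

`n1_ext`: the output `N1O` with `b = 1` for a list of balls, from the output for the first ball.
-/

set_option autoImplicit false

namespace Pool.S16

open Finset Real MvPolynomial
open Pool.Agent.H49.Ent Pool.Agent.H32.Dense Pool.STK Pool.KA Pool.KSAT Pool.K2S Pool.PB Pool.S6C
open Pool.GEN Pool.CHT Pool.NVX
open Pool.STB (V3 Po Bx)
open Pool.STB77 (Inc cos cos_slam)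
open Pool.STB82 (yv lnA lnP tmP eval_aevalP lnA_deg lnP_deg lnP_lnA lnP_eval)
open Pool.STB65 (InpF N1O inc_less)
open Pool.PB.Trl (rt rt_mem t_rt)
open Pool.FLF (Fam.sub)

/-- **The output for a list of balls**, for a target of slope one, from the first ball. -/
theorem n1_ext (m D : ℕ) : ∃ (C K c₀ : ℕ) (C₁ : ℝ), 1 ≤ C₁ ∧ ∀ {J : ℕ} {F : Fam m J}
    {c : ℕ → Fin m} {K₀ N W s v y e X g₃ : ℕ} {A ee : ℕ → ℕ} {g : ℕ → ℕ → ℕ} {B : F.Ω → Prop}
    {G : ℕ → PtT F → ℕ → MvPolynomial (Option (Fin m)) ℝ}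
    {H : ℕ → LnT F → ℕ → MvPolynomial (Option (Fin m)) ℝ}
    {pP : PtT F → ℕ → MvPolynomial (Option (Fin m)) ℝ}
    {pH : LnT F → ℕ → MvPolynomial (Option (Fin m)) ℝ} {xP : PtT F → ℝ} {xH : LnT F → ℝ}
    {Gx zP : PtT F → MvPolynomial (Option (Fin m)) ℝ}
    {Gl zH : LnT F → MvPolynomial (Option (Fin m)) ℝ} {f : ℕ → PtT F → Po}
    {f' : ℕ → LnT F → Po} {kf : LnT F → Po} {θ : ℝ}, 0 < Pe F.p B →
    Set.InjOn c (Set.Iio 4) →
    N1O F c D K₀ 1 0 W s v y e X g₃ g₃ A ee g B G H pP pH xP xH Gx zP zH f f' kf →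
    Inc F c D N W s v A ee g B G H pP pH → N ≤ s → (∀ y, (Gx y).totalDegree ≤ D) →
    (∀ S, (Gl S).totalDegree ≤ D) → (∀ y, DepC c 3 (Gx y)) →
    (∀ ω, B ω → Gx (ptr F J ω) = Gl (slam F W ω)) →
    (∀ k ≤ N, ∀ ω, B ω → ∀ l < 3, ∀ b,
      NBx c (G k (ptr F J ω)) (g k) (A k) (F.t ω) l b →
      |eval b (G k (ptr F J ω) l) - eval b (G 0 (ptr F J ω) l)| ≤ 2 ^ s / 2 ^ g 0 l) →
    (∀ k ≤ N, ∀ l < 3, g 0 l ≤ g k l + s) →
    (∀ (B' : F.Ω → Prop) (hB' : 0 < Pe F.p B'), Sub B' B → Pe F.p B ≤ 2 * Pe F.p B' →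
      (Fam.sub F B' hB').Tm θ) → 0 ≤ θ → C₁ * (θ + 1) ≤ ((J : ℝ) - W) * Real.log 2 →
    C₁ * (θ + 1) ≤ s →
    (∀ i < 4, max (ee 0) X + (if i < 3 then g 0 i else g₃) + (A N - W) + c₀ ≤ J) →
    ∃ (B' : F.Ω → Prop) (f : ℕ → PtT F → Po) (f' : ℕ → LnT F → Po) (kf : LnT F → Po), Sub B' B ∧
      Pe F.p B / 4 ≤ Pe F.p B' ∧
      N1O F c D K 1 N W s v (y + s + v + C) e (X + C * (s + 1)) g₃ (g₃ + (A N - W)) A ee g B'
        G H pP pH xP xH Gx zP zH f f' kf := by
  obtain ⟨c₁, hvis⟩ := vis_val D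
  obtain ⟨C₁, hC₁, hcrv⟩ := crv m (D + 1)
  obtain ⟨C₂, hmk⟩ := mkv_win (D + 1)
  obtain ⟨c₃, D₃, hD₃, hdil⟩ := nbx_dil 4 (fun _ => D)
  refine ⟨C₂ + c₃ + D₃ + 4, D + 1, c₁ + 2, C₁, hC₁, ?_⟩
  intro J F c K₀ N W s v y e X g₃ A ee g B G H pP pH xP xH Gx zP Gl zH f f' kf θ hP hc O I hNs hGd
    hLd hGe hGc hu hgm hTm hθ hn1 hn2 hJ
  have pw : ∀ {x y : ℕ}, x ≤ y → (2 : ℝ) ^ x ≤ 2 ^ y := fun h => pow_le_pow_right₀ (by norm_num) h
  have dv : ∀ {α : ℝ} {p q r t : ℕ}, α ≤ 2 ^ p / 2 ^ q → p + t ≤ r + q → α ≤ 2 ^ r / 2 ^ t := by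
    intro α p q r t h1 h2
    refine h1.trans ?_
    rw [div_le_div_iff₀ (by positivity) (by positivity), ← pow_add, ← pow_add]
    exact pw h2
  have hA0 := I.A0
  have hWJ : W ≤ J := by
    have := I.AJ 0 (Nat.zero_le N)
    omega
  have ok0 := I.ok 0 (Nat.zero_le N)
  have hAm : ∀ k ≤ N, A k ≤ A N := by
    intro k hk
    obtain ⟨d, rfl⟩ : ∃ d, N = k + d := ⟨N - k, by omega⟩
    have key : ∀ d' ≤ d, A k ≤ A (k + d') := by
      intro d'
      induction d' with
      | zero => exact fun _ => le_rfl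
      | succ d' ih => exact fun h => (ih (by omega)).trans (I.Am (k + d') (by omega))
    exact key d le_rfl
  -- the closed part
  obtain ⟨Z, hZ⟩ : ∃ Z : PtT F → MvPolynomial (Option (Fin m)) ℝ, Z = fun p => Gx p + zP p :=
    ⟨_, rfl⟩
  obtain ⟨Zl, hZl⟩ : ∃ Zl : LnT F → MvPolynomial (Option (Fin m)) ℝ, Zl = fun S => Gl S + zH S :=
    ⟨_, rfl⟩
  have hZd : ∀ p, (Z p).totalDegree ≤ D := fun p => by
    rw [hZ]
    exact (totalDegree_add _ _).trans (max_le (hGd p) (O.zd p))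
  have hZld : ∀ S, (Zl S).totalDegree ≤ D := fun S => by
    rw [hZl]
    exact (totalDegree_add _ _).trans (max_le (hLd S) (O.zd' S))
  have hZe : ∀ p, DepC c 3 (Z p) := fun p b b' hn hb => by
    rw [hZ, map_add, map_add, hGe p b b' hn hb, O.ze p b b' hn fun j hj => hb j (by omega)]
  have hZc : ∀ ω, B ω → Z (ptr F J ω) = Zl (slam F W ω) := fun ω hω => by
    rw [hZ, hZl]
    show Gx (ptr F J ω) + zP (ptr F J ω) = Gl (slam F W ω) + zH (slam F W ω)
    rw [hGc ω hω, O.zc ω hω]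
  have hZg : ∀ ω, B ω → ∀ b', NBx c (G 0 (ptr F J ω)) (g 0) (A 0) (F.t ω) 3 b' → ∀ l < 3,
      |eval b' (pderiv (some (c l)) (Z (ptr F J ω)))| ≤
        2 ^ (X + nlp (fun j => if j < 3 then g 0 j else g₃) l 3) := fun ω hω b' hb l hl => by
    rw [hZ]
    exact O.gT 0 le_rfl ω hω b' hb l hl
  -- the value
  obtain ⟨ν, hν⟩ : ∃ ν : F.Ω → ℝ, ν = fun ω =>
    2 ^ g₃ * (F.x ω (c 3) - eval (bt F ω) (Z (ptr F J ω))) := ⟨_, rfl⟩
  have hν1 : ∀ ω, B ω → |ν ω| ≤ 2 ^ (y + 1) := by
    intro ω hω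
    have h1 := O.val 0 le_rfl ω hω
    have h2 := O.inp.f0 ω hω 0 (fun i => by simp)
    rw [add_zero] at h2
    rw [hA0, Nat.sub_self, pow_zero, div_one, one_pow, mul_one] at h1
    rw [hν]
    show |2 ^ g₃ * (F.x ω (c 3) - eval (bt F ω) (Z (ptr F J ω)))| ≤ _
    have h3 : Z (ptr F J ω) = Gx (ptr F J ω) + zP (ptr F J ω) := by rw [hZ]
    rw [h3]
    have e1 : 2 ^ g₃ * (F.x ω (c 3) - eval (bt F ω) (Gx (ptr F J ω) + zP (ptr F J ω))) =
        eval (yv F c W (g 0 1) (fun S => pH S 1) ω) (f 0 (ptr F J ω)) -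
        (eval (yv F c W (g 0 1) (fun S => pH S 1) ω) (f 0 (ptr F J ω)) - 2 ^ g₃ *
          (F.x ω (c 3) - eval (bt F ω) (Gx (ptr F J ω) + zP (ptr F J ω)))) := by ring
    rw [e1]
    refine (abs_sub _ _).trans ((add_le_add h2 h1).trans (le_of_eq ?_))
    rw [pow_succ]
    ring
  -- the visible value
  obtain ⟨νv, hνv⟩ : ∃ νv : PtT F → ℝ, νv = fun p =>
    2 ^ g₃ * (bho J J p (some (c 3)) - eval (bho J J p) (Z p)) := ⟨_, rfl⟩
  have hν2 : ∀ ω, B ω → |νv (ptr F J ω) - ν ω| ≤ 1 / 2 / 2 ^ (A N - W) := by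
    intro ω hω
    have h1 := hvis (F := F) (c := c) (a := A 0) (w := A 0) (e := ee 0) (X := X) (g₃ := g₃)
      (u := A N - W) (g := g 0) (B := B) (G := G 0) (H := H 0) (Z := Z) hc ok0 hZd hZe hZg
      (fun i hi => by have := hJ i hi; omega) ω hω
    have h2 := Pool.PB.Trl.x_near F J ω (c 3)
    have h3 : (1 : ℝ) / 2 ^ J ≤ 1 / 4 / 2 ^ (g₃ + (A N - W)) := by
      rw [div_div]
      refine one_div_le_one_div_of_le (by positivity) ?_
      rw [show (4 : ℝ) = 2 ^ 2 by norm_num, ← pow_add]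
      have := hJ 3 (by norm_num)
      simp only [lt_irrefl, if_false] at this
      exact pw (by omega)
    have h4 : (2 : ℝ) ^ g₃ * (1 / 4 / 2 ^ (g₃ + (A N - W))) = 1 / 4 / 2 ^ (A N - W) := by
      rw [pow_add]
      field_simp
    have e1 : νv (ptr F J ω) - ν ω = 2 ^ g₃ * ((((F.X J ω (c 3) : ℤ) : ℝ) / 2 ^ J - F.x ω (c 3)) -
        (eval (bho J J (ptr F J ω)) (Z (ptr F J ω)) - eval (bt F ω) (Z (ptr F J ω)))) := by
      rw [hνv, hν]
      have e2 : bho J J (ptr F J ω) (some (c 3)) = ((F.X J ω (c 3) : ℤ) : ℝ) / 2 ^ J := rfl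
      show 2 ^ g₃ * (bho J J (ptr F J ω) (some (c 3)) - _) - _ = _
      rw [e2]
      ring
    rw [e1, abs_mul, abs_of_pos (by positivity : (0 : ℝ) < 2 ^ g₃)]
    calc (2 : ℝ) ^ g₃ * _ ≤ 2 ^ g₃ * (1 / 4 / 2 ^ (g₃ + (A N - W)) +
          1 / 4 / 2 ^ (g₃ + (A N - W))) :=
          mul_le_mul_of_nonneg_left ((abs_sub _ _).trans (add_le_add (h2.trans h3) h1))
            (by positivity)
      _ = _ := by
          rw [mul_add, h4]
          ring
  -- the line
  obtain ⟨B', b1, b2, b3⟩ := hcrv (F := F) (w := W) (s := s) (A := B) (M := 2 ^ (y + 1) / 2 ^ g₃)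
    (QG (c 3) Zl) hP hWJ (QG_deg (c 3) hZld) hTm hθ hn1 hn2 (by positivity) (fun ω hω => by
      rw [QG_val, ← hZc ω hω]
      have h1 := hν1 ω hω
      rw [hν] at h1
      rw [le_div_iff₀ (by positivity)]
      rw [abs_mul, abs_of_pos (by positivity : (0 : ℝ) < 2 ^ g₃)] at h1
      linarith)
  obtain ⟨q, hq⟩ : ∃ q : LnT F → Polynomial ℝ, q = fun S => qG W g₃ (c 3) Zl S := ⟨_, rfl⟩
  have hqd : ∀ S, (q S).natDegree ≤ D + 1 := fun S => by
    rw [hq]
    exact qG_deg W g₃ (c 3) hZld S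
  have hmv : ∀ ω, B' ω → ∀ a, W ≤ a → a ≤ J → ∀ r : V3, Bx (1 / 2 ^ (a - W)) r →
      |eval (yv F c W (g 0 1) (fun S => pH S 1) ω + r) (upt (D + 1) (q (slam F W ω))) - ν ω| ≤
        2 ^ (y + s + C₂ + 1) / 2 ^ (a - W) := by
    intro ω hω a haW haJ r hr
    rw [upt_eval (hqd _)]
    have e1 : (yv F c W (g 0 1) (fun S => pH S 1) ω + r) 0 = rt F W ω + r 0 := rfl
    rw [e1, hq, qG_eval, tm_near F hWJ]
    have h1 := hmk (F := F) (w := W) (w' := a) (K := 2 ^ s * (2 ^ (y + 1) / 2 ^ g₃))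
      (P := QG (c 3) Zl (slam F W ω)) (ω := ω) haW haJ (QG_deg (c 3) hZld _) (fun t h2 h3 =>
        (le_wmx ((win_iff hWJ ω t).1 ⟨h2, h3⟩)).trans (b3 ω hω)) (F.t ω + r 0 / 2 ^ W) (by
        have h4 := hr 0
        rw [add_sub_cancel_left, abs_div, abs_of_pos (by positivity : (0 : ℝ) < 2 ^ W)]
        calc |r 0| / 2 ^ W ≤ 1 / 2 ^ (a - W) / 2 ^ W :=
              div_le_div_of_nonneg_right h4 (by positivity)
          _ = 1 / 2 ^ a := by
              rw [div_div, ← pow_add]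
              congr 2
              omega
          _ ≤ 2 / 2 ^ a := div_le_div_of_nonneg_right (by norm_num) (by positivity))
    have e2 : ν ω = 2 ^ g₃ * (QG (c 3) Zl (slam F W ω)).eval (F.t ω) := by
      rw [QG_val, ← hZc ω (b1 ω hω), hν]
    rw [e2, ← mul_sub, abs_mul, abs_of_pos (by positivity : (0 : ℝ) < 2 ^ g₃)]
    refine (mul_le_mul_of_nonneg_left h1 (by positivity)).trans (le_of_eq ?_)
    have e3 : (2 : ℝ) ^ a = 2 ^ (a - W) * 2 ^ W := by
      rw [← pow_add]
      congr 1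
      omega
    have e4 : (2 : ℝ) ^ (y + s + C₂ + 1) = 2 ^ C₂ * 2 ^ s * 2 ^ (y + 1) := by
      rw [← pow_add, ← pow_add]
      congr 1
      omega
    rw [e3, e4]
    field_simp
  have hYb : (2 : ℝ) ^ (y + s + C₂ + 1) + 1 ≤ 2 ^ (y + s + v + (C₂ + c₃ + D₃ + 4)) := by
    have h1 : (1 : ℝ) ≤ 2 ^ (y + s + C₂ + 1) := one_le_pow₀ (by norm_num)
    have h2 : (2 : ℝ) ^ (y + s + C₂ + 1 + 1) ≤ 2 ^ (y + s + v + (C₂ + c₃ + D₃ + 4)) :=
      pw (by omega)
    rw [pow_succ] at h2
    linarith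
  have hkey : ∀ ω, B' ω → ∀ k ≤ N, ∀ r : V3, Bx (1 / 2 ^ (A k - W)) r →
      |eval (yv F c W (g 0 1) (fun S => pH S 1) ω + r) (upt (D + 1) (q (slam F W ω))) -
        νv (ptr F J ω)| ≤ 2 ^ (y + s + v + (C₂ + c₃ + D₃ + 4)) * (1 / 2 ^ (A k - W)) ^ 1 := by
    intro ω hω k hk r hr
    have h1 := hmv ω hω (A k) (I.AW k hk) (I.AJ k hk) r hr
    have h2 := hν2 ω (b1 ω hω)
    have h3 : (1 : ℝ) / 2 / 2 ^ (A N - W) ≤ 1 / 2 ^ (A k - W) := by
      rw [div_div]
      refine one_div_le_one_div_of_le (by positivity) ?_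
      have h4 : (2 : ℝ) ^ (A k - W) ≤ 2 ^ (A N - W) := pw (by have := hAm k hk; omega)
      have h5 : (0 : ℝ) < 2 ^ (A N - W) := by positivity
      linarith
    have e1 : eval (yv F c W (g 0 1) (fun S => pH S 1) ω + r) (upt (D + 1) (q (slam F W ω))) -
        νv (ptr F J ω) = (eval (yv F c W (g 0 1) (fun S => pH S 1) ω + r)
          (upt (D + 1) (q (slam F W ω))) - ν ω) - (νv (ptr F J ω) - ν ω) := by ring
    rw [e1, pow_one]
    refine (abs_sub _ _).trans ((add_le_add h1 (h2.trans h3)).trans ?_)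
    rw [← add_div, mul_one_div]
    exact div_le_div_of_nonneg_right hYb (by positivity)
  have hp1 : ∀ k : ℕ, (0 : ℝ) < 1 / 2 ^ k ∧ (1 : ℝ) / 2 ^ k ≤ 1 := fun k => ⟨by positivity, by
    rw [div_le_one (by positivity)]
    exact one_le_pow₀ (by norm_num)⟩
  have hXn : ∀ l, X + nlp (fun j => if j < 3 then g 0 j else g₃) l 3 ≤
      X + (C₂ + c₃ + D₃ + 4) * (s + 1) + nlp (fun j => if j < 3 then g 0 j else g₃) l 3 :=
    fun l => by omega
  refine ⟨B', fun _ p => C (νv p), fun k S => upt (D + 1) (q (cos F W (W + (A k - W)) S)),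
    fun S => upt (D + 1) (q S), b1, b2, ?_⟩
  exact
    { inc := inc_less I b1
      Ns := hNs
      n0' := O.n0'
      hp := O.hp
      xc := fun ω hω => O.xc ω (b1 ω hω)
      xn := fun ω hω => O.xn ω (b1 ω hω)
      pg := fun ω hω => O.pg ω (b1 ω hω)
      zd := O.zd
      zd' := O.zd'
      ze := O.ze
      ze' := O.ze'
      zc := fun ω hω => O.zc ω (b1 ω hω)
      inp :=
        { fd := fun j p => by
            rw [totalDegree_C]
            exact Nat.zero_le _
          kd := fun S => upt_deg _ _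
          em := fun j hj => by
            have h1 := I.Am j hj
            have h2 := I.Av j hj
            refine ⟨by omega, ?_⟩
            rw [← pow_add]
            exact pw (by omega)
          f0 := fun ω hω r _ => by
            rw [eval_C]
            have h1 := hν1 ω (b1 ω hω)
            have h2 := hν2 ω (b1 ω hω)
            have h3 := hp1 (A N - W)
            have h4 : (1 : ℝ) / 2 / 2 ^ (A N - W) ≤ 1 := by
              rw [div_right_comm]
              linarith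
            have e1 : νv (ptr F J ω) = ν ω + (νv (ptr F J ω) - ν ω) := by ring
            rw [e1]
            refine (abs_add_le _ _).trans ((add_le_add h1 (h2.trans h4)).trans (le_trans ?_ hYb))
            exact add_le_add_left (pw (by omega)) _
          ch := fun ω hω j hj r _ => by
            rw [eval_C, sub_self, abs_zero]
            positivity
          nr := fun ω hω r hr => by
            rw [eval_C]
            exact hkey ω hω N le_rfl r hr
          fd' := fun j S => upt_deg _ _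
          agr := fun j hj ω hω r hr => by
            rw [eval_C, abs_sub_comm]
            have h1 : W + (A j - W) ≤ J := by
              have := I.AJ j hj
              have := I.AW j hj
              omega
            show |eval _ (upt (D + 1) (q (cos F W (W + (A j - W)) (slam F (W + (A j - W)) ω)))) -
              _| ≤ _
            rw [cos_slam F (Nat.le_add_right _ _) h1]
            exact hkey ω hω j hj r hr }
      val := fun k hk ω hω => by
        rw [eval_C]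
        have h2 := hν2 ω (b1 ω hω)
        have h3 : (1 : ℝ) / 2 / 2 ^ (A N - W) ≤
            2 ^ (y + s + v + (C₂ + c₃ + D₃ + 4)) * (1 / 2 ^ (A k - W)) ^ 1 := by
          have h5 : (1 : ℝ) / 2 ^ (A N - W) ≤ 1 / 2 ^ (A k - W) :=
            one_div_le_one_div_of_le (by positivity) (pw (by have := hAm k hk; omega))
          have h6 := hp1 (A N - W)
          have h7 : (1 : ℝ) ≤ 2 ^ (y + s + v + (C₂ + c₃ + D₃ + 4)) := one_le_pow₀ (by norm_num)
          rw [pow_one, div_right_comm]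
          have h8 := hp1 (A k - W)
          nlinarith
        have e1 : ν ω = 2 ^ g₃ * (F.x ω (c 3) - eval (bt F ω)
            (Gx (ptr F J ω) + zP (ptr F J ω))) := by
          rw [hν, hZ]
        rw [← e1]
        exact h2.trans h3
      gT := fun k hk ω hω b' hb l hl => by
        have h1 := hdil (c := c) (i := 3) (G := G 0 (ptr F J ω)) (g := g 0) (a := A 0)
          (t := F.t ω) (Q := pderiv (some (c l)) (Gx (ptr F J ω) + zP (ptr F J ω)))
          (M := 2 ^ (X + nlp (fun j => if j < 3 then g 0 j else g₃) l 3)) (s + 1)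
          (by norm_num) (hc.mono fun x (hx : x < 3) => show x < 4 by omega)
          (fun j => ok0.degG _ j) (ok0.depG _)
          (DepC.pderiv (by
            have := hZe (ptr F J ω)
            rw [hZ] at this
            exact this) l)
          (Pool.KS3.SML.totalDegree_pderiv_le _ _ D ((by
            have := hZd (ptr F J ω)
            rw [hZ] at this
            exact this : (Gx (ptr F J ω) + zP (ptr F J ω)).totalDegree ≤ D).trans
              (Nat.le_succ _)))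
          (by positivity) (fun b hb => O.gT 0 le_rfl ω (b1 ω hω) b hb l hl) b'
          (hb.1.trans (one_div_le_one_div_of_le (by positivity) (pw (by
            rw [hA0]
            exact I.AW k hk)))) fun j hj => by
            have h2 := hb.2 j hj
            have h3 := hu k hk ω (b1 ω hω) j hj b' ⟨hb.1, fun i hi => hb.2 i (by omega)⟩
            have h4 : (1 : ℝ) / 2 ^ g k j ≤ 2 ^ s / 2 ^ g 0 j := by
              rw [← pow_zero 2]
              exact dv le_rfl (by have := hgm k hk j hj; omega)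
            have e1 : b' (some (c j)) - eval b' (G 0 (ptr F J ω) j) =
                (b' (some (c j)) - eval b' (G k (ptr F J ω) j)) +
                (eval b' (G k (ptr F J ω) j) - eval b' (G 0 (ptr F J ω) j)) := by ring
            rw [e1]
            refine (abs_add_le _ _).trans ?_
            have e2 : (2 : ℝ) ^ (s + 1) / 2 ^ g 0 j = 2 ^ s / 2 ^ g 0 j + 2 ^ s / 2 ^ g 0 j := by
              rw [pow_succ]
              ring
            rw [e2]
            linarith
        refine h1.trans ?_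
        rw [← pow_add]
        refine pw ?_
        have k1 : (s + 1) * D₃ ≤ D₃ * (s + 1) := by rw [Nat.mul_comm]
        have k2 : c₃ ≤ c₃ * (s + 1) := Nat.le_mul_of_pos_right _ (by omega)
        have k3 : (C₂ + c₃ + D₃ + 4) * (s + 1) =
            C₂ * (s + 1) + c₃ * (s + 1) + D₃ * (s + 1) + 4 * (s + 1) := by ring
        rw [k3]
        omega
      gz := fun ω hω b' hb hb' l hl => (O.gz ω (b1 ω hω) b' hb hb' l hl).trans (pw (hXn l))
      near := fun ω hω r hr => by
        rw [eval_C]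
        have h1 := hkey ω hω N le_rfl r hr
        have e1 : (2 : ℝ) ^ g₃ / 2 ^ (g₃ + (A N - W)) = (1 / 2 ^ (A N - W)) ^ 1 := by
          rw [pow_add, pow_one]
          field_simp
        rw [e1]
        exact h1 }

end Pool.S16
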