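import Pool.Agent.H6.S1.Vmv
import Pool.Agent.H6.ASM.V0a

/-!
# The sheet `Sh1`: small rate

`sh1_sC`, `sh1_tB`: the fields `sC`, `tB` of `Sh1`.
-/

set_option autoImplicit false

namespace Pool.S16

open Real
open Pool.GEN Pool.PKG Pool.ALT Pool.LA91 Pool.ASM
open Pool.STB65 (partB_mono partB_c)

/-- **The field `tB` of `Sh1`**: `u` thin, small rate, void. -/
theorem sh1_tB : PartB (kg4 .one .one .thin .one) N1t (fun _ => AdmL 4)
    (fun Sl => Sl 3 * Real.log 2) :=
  partB_mono (partB_one _) fun _ hS => ⟨hS.2.1, hS.2.2.2⟩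

/-- `u` steep, small rate, void. -/
theorem sh1_sB : PartB (kg4 .one .one .stp .one) N1s (fun _ => AdmL 4)
    (fun Sl => Sl 3 * Real.log 2) :=
  partB_mono (partB_one _) fun _ hS => ⟨hS.2.1, hS.2.2.2⟩

/-- **The field `sC` of `Sh1`**: `u` steep, small rate. -/
theorem sh1_sC : PartC 2 (kg4 .one .one .stp .one) N1s (fun _ => AdmL 4)
    (fun Sl => Sl 3 * Real.log 2) := partB_c sh1_sB 2

end Pool.S16
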