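import Pool.Agent.H6.S1.Nz

/-!
# The input of the jets for a target of slope one, in a class

`n1_one`: the output `N1O` with `b = 1` for a list of balls, in a class, from nodes, a closed label of
a window, and a blind closed label at the first ball.
-/

set_option autoImplicit false

namespace Pool.S16

open Finset Real MvPolynomial
open Pool.Agent.H49.Ent Pool.Agent.H32.Dense Pool.STK Pool.KA Pool.KSAT Pool.K2S Pool.PB Pool.S6C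
open Pool.GEN Pool.CHT Pool.NVX
open Pool.STB (V3 Po Bx)
open Pool.GRD (LbP)
open Pool.ALT (Fml BlB)
open Pool.STB77 (Inc Tgt Nls NodW NodF tgt_of cos cos_slam inc_cls bas_lrg)
open Pool.STB65 (InpF N1O inc_less inc_mono Nsu nls_up nsu_mono bls_cls n1_last fl_hi fl_lo fl_two
  slp_num x3_num fl_sub)
open Pool.Z3 (share_ex)

set_option maxHeartbeats 2000000 in
/-- **The input of the jets for a target of slope one, in a class.** -/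
theorem n1_one (m D : ℕ) (hD : 1 ≤ D) : ∃ C₀ C D' K : ℕ, 1 ≤ C₀ ∧ D ≤ D' ∧ ∀ {Db : ℕ} {S : PCl m}
    {c : ℕ → Fin m} {β : ℕ → ℝ → ℝ → ℝ} {e E : ℝ} (_ : TmH S) (_ : Set.InjOn c (Set.Iio 4))
    (_ : 0 ≤ e) (M : ℕ) (AA WW : ℕ → ℝ) (_ : ∀ k < M, 0 ≤ WW k) (_ : ∀ k < M, WW k ≤ AA k)
    (_ : ∀ k < M, AA k < 1) (_ : ∀ j < M, ∀ k < M, AA j ≤ AA k → WW j ≤ WW k →
      β 3 (AA j) (WW j) ≤ β 3 (AA k) (WW k))
    (_ : ∀ k < M, NodF S c 3 D β e E (AA k) (WW k)) (N : ℕ) (ι : ℕ → ℕ)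
    (_ : ∀ k ≤ N, ι k < M ∧ WW (ι k) = AA (ι k)) (_ : ∀ k < N, AA (ι k) ≤ AA (ι (k + 1)))
    (v s₀ : ℝ) (_ : 0 ≤ v) (_ : ∀ k < N, AA (ι (k + 1)) ≤ AA (ι k) + v) (_ : 0 ≤ s₀)
    (_ : ∀ k ≤ N, β 0 (AA (ι k)) (WW (ι k)) ≤ AA (ι k) + s₀)
    (_ : AA (ι 0) ≤ β 0 (AA (ι 0)) (WW (ι 0)) + s₀) (_ : AA (ι 0) ≤ β 1 (AA (ι 0)) (WW (ι 0)))
    (_ : ∀ k ≤ N, β 1 (AA (ι k)) (WW (ι k)) ≤
      β 1 (AA (ι 0)) (WW (ι 0)) + (AA (ι k) - AA (ι 0)) + s₀)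
    (_ : ∀ k ≤ N, β 1 (AA (ι 0)) (WW (ι 0)) + (AA (ι k) - AA (ι 0)) ≤
      β 1 (AA (ι k)) (WW (ι k)) + s₀) (w pN x p p₂ y : ℝ) (Ψ : Fml m)
    (_ : ∀ k ≤ N, ∀ l < 3, β l (AA (ι 0)) (WW (ι 0)) ≤ β l (AA (ι k)) (WW (ι k)) + s₀)
    (_ : ∀ l ≤ 3, 0 ≤ β l (AA (ι 0)) (WW (ι 0)))
    (_ : β 3 (AA (ι 0)) (WW (ι 0)) ≤ p + s₀)
    (_ : y + β 3 (AA (ι 0)) (WW (ι 0)) ≤ β 2 (AA (ι 0)) (WW (ι 0)) + s₀)
    (_ : w ≤ AA (ι 0)) (_ : 0 ≤ x) (_ : β 3 (AA (ι 0)) (WW (ι 0)) ≤ pN + x)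
    (_ : ∀ (J : ℕ) (F : Fam m J) (A : F.Ω → Prop) (V : Type) (z : PtT F → V) (z' : LnT F → V)
      (G : V → MvPolynomial (Option (Fin m)) ℝ), Ψ J F A V z z' G →
      LbP F ((range 3).image c) (c 3) D J ⌊w * J⌋₊ ⌊pN * J⌋₊ A z z' G)
    (_ : Db ≤ D) (_ : BlB S c 2 (c 3) w (AA (ι 0)) Db Db p p₂ y Ψ)
    (_ : ∃ χ : ℝ, 0 < χ ∧ Bas S (fun J F A => ∃ (P₁ : ℕ) (V₁ : Type)
      (z₁ : PtT F → V₁) (z₁' : LnT F → V₁) (G₁ : V₁ → MvPolynomial (Option (Fin m)) ℝ),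
      LbP F ((range 3).image c) (c 3) Db J ⌊AA (ι 0) * J⌋₊ P₁ A z₁ z₁' G₁ ∧
        (p + χ) * J ≤ P₁))
    (_ : ∃ χ : ℝ, 0 < χ ∧ Bas S (fun J F A => ∃ (P₁ : ℕ) (V₁ : Type)
      (z₁ : PtT F → V₁) (z₁' : LnT F → V₁) (G₁ : V₁ → MvPolynomial (Option (Fin m)) ℝ),
      LbP F ((range 2).image c) (c 2) Db J ⌊AA (ι 0) * J⌋₊ P₁ A z₁ z₁' G₁ ∧
        (p₂ + χ) * J ≤ P₁)) (Dr : ℕ) (_ : D' ≤ Dr) (s : ℝ) (_ : 0 < s)
    (_ : ∀ l ≤ 3, β l (AA (ι 0)) (WW (ι 0)) + C * (s₀ + 4 * s + v) + max e (E + s) + x +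
      (AA (ι N) - AA (ι 0)) < 1),
    ∃ (K₁ : ℝ) (d : ℕ → ℕ → ℝ), 0 < K₁ ∧
      (∀ k < M, ∀ l ≤ 3, 0 < d k l ∧ d k l ≤ s ∧ d k l < AA k) ∧
      Bas S (fun J F A => ∀ (V : Type) (z : PtT F → V) (z' : LnT F → V)
        (G : V → MvPolynomial (Option (Fin m)) ℝ), Ψ J F A V z z' G →
        ∃ (B : F.Ω → Prop) (Gn : ℕ → PtT F → ℕ → MvPolynomial (Option (Fin m)) ℝ)
          (Hn : ℕ → LnT F → ℕ → MvPolynomial (Option (Fin m)) ℝ)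
          (pP : PtT F → ℕ → MvPolynomial (Option (Fin m)) ℝ)
          (pH : LnT F → ℕ → MvPolynomial (Option (Fin m)) ℝ) (xP : PtT F → ℝ) (xH : LnT F → ℝ)
          (zP : PtT F → MvPolynomial (Option (Fin m)) ℝ)
          (zH : LnT F → MvPolynomial (Option (Fin m)) ℝ) (f : ℕ → PtT F → Po)
          (f' : ℕ → LnT F → Po) (kf : LnT F → Po) (gS : ℕ), Sub B A ∧ Pe F.p A ≤ K₁ * Pe F.p B ∧
          N1O F c D' K 1 N ⌊AA (ι 0) * J⌋₊ (C₀ * (⌊(s₀ + 3 * s) * J⌋₊ + 1)) (⌊v * J⌋₊ + 1)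
            (C * (⌊(s₀ + 3 * s) * J⌋₊ + ⌊v * J⌋₊ + 1)) ⌊e * J⌋₊
            (C * (⌊(s₀ + 3 * s) * J⌋₊ + ⌊v * J⌋₊ + 1) + max ⌊e * J⌋₊ ⌊(E + s) * J⌋₊ + ⌊x * J⌋₊)
            ⌊(β 3 (AA (ι 0)) (WW (ι 0)) - d (ι 0) 3) * J⌋₊ gS
            (fun k => ⌊AA (ι k) * J⌋₊) (fun _ => ⌊(E + s) * J⌋₊)
            (fun k l => ⌊(β l (AA (ι k)) (WW (ι k)) - d (ι k) l) * J⌋₊) B (fun k => Gn (ι k))
            (fun k => Hn (ι k)) pP pH xP xH (fun y => G (z y)) zP zH f f' kf) := by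
  classical
  obtain ⟨C₁, D₁, hDD₁, hinc⟩ := inc_cls D
  have hD₁ : 1 ≤ D₁ := hD.trans hDD₁
  obtain ⟨C₂, K₀, D₂, hDD₂, hlast⟩ := n1_last D₁ 1 hD₁
  obtain ⟨C₃, K, c₀, Cr, hCr, hext⟩ := n1_ext m D₂
  obtain ⟨C₄, hnsz⟩ := nsu_zero D₁ hD₁
  obtain ⟨C₀, hC₀⟩ : ∃ C₀, C₀ = C₁ + 3 * C₄ + 1 := ⟨_, rfl⟩
  obtain ⟨C, hC⟩ : ∃ C, C = (C₂ + C₃ + 1) * (C₀ + 3) + C₃ + 2 := ⟨_, rfl⟩
  refine ⟨C₀, C, D₂, K, by omega, hDD₁.trans hDD₂, ?_⟩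
  intro Db S c β e E hS hc he0 M AA WW hW0 hWA hA1 hmon hN N ι hι ham v s₀ hv0 hav hs₀
    hn0 hn0' hg1 hn1 hn1' w pN x p p₂ y Ψ hgm hβ0 hlq hbly hwA hx0 hpN hΨ hDb hbl hl3 hl2 Dr hDr s
    hs hJ1
  have hDr₁ : D₁ ≤ Dr := hDD₂.trans hDr
  have hι0 := hι 0 (Nat.zero_le _)
  have hAA0 : ∀ k ≤ N, AA (ι 0) ≤ AA (ι k) := by
    intro k
    induction k with
    | zero => exact fun _ => le_rfl
    | succ k ih => exact fun hk => (ih (by omega)).trans (ham k (by omega))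
  have h00 : 0 ≤ AA (ι 0) := (hW0 _ hι0.1).trans (hWA _ hι0.1)
  have h01 : AA (ι 0) < 1 := hA1 _ hι0.1
  have hc3 : Set.InjOn c (Set.Iio 3) := hc.mono fun x (hx : x < 3) => show x < 4 by omega
  obtain ⟨K₁, d, ψ, hK₁, hψ, hd, hbas⟩ := hinc (r := 3) (by norm_num) hS hc M AA WW hW0 hWA hA1
    hmon hN N ι (fun k hk => (hι k hk).1) (fun k hk => (hι k hk).2) ham v s₀ hav hs₀ hn0 hn0'
    hg1 hn1 hn1' Dr s s hs hs
  have hd' : ∀ k < M, ∀ l ≤ 3, 0 < d k l ∧ d k l ≤ s := fun k hk l hl =>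
    ⟨(hd k hk l hl).1, (hd k hk l hl).2.1⟩
  have hd0 := hd _ hι0.1
  -- the slack of the time
  have hl2' : 0 < Real.log 2 := Real.log_pos one_lt_two
  have hCr0 : 0 < Cr := by linarith
  obtain ⟨τ, hτ⟩ : ∃ τ : ℝ, τ = min (s / (2 * Cr)) ((1 - AA (ι 0)) * Real.log 2 / (2 * Cr)) :=
    ⟨_, rfl⟩
  have h1A : 0 < 1 - AA (ι 0) := by linarith
  have hτ0 : 0 < τ := by
    rw [hτ]
    exact lt_min (by positivity) (by positivity)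
  have hτ1 : Cr * τ ≤ s / 2 := by
    have h1 : τ ≤ s / (2 * Cr) := by rw [hτ]; exact min_le_left _ _
    calc Cr * τ ≤ Cr * (s / (2 * Cr)) := mul_le_mul_of_nonneg_left h1 hCr0.le
      _ = s / 2 := by field_simp
  have hτ2 : Cr * τ ≤ (1 - AA (ι 0)) * Real.log 2 / 2 := by
    have h1 : τ ≤ (1 - AA (ι 0)) * Real.log 2 / (2 * Cr) := by rw [hτ]; exact min_le_right _ _
    calc Cr * τ ≤ Cr * ((1 - AA (ι 0)) * Real.log 2 / (2 * Cr)) :=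
          mul_le_mul_of_nonneg_left h1 hCr0.le
      _ = _ := by field_simp
  -- large `J`
  obtain ⟨J₁, hJ₁⟩ := exists_nat_ge (((C : ℝ) + c₀ + 12 + N) / s)
  obtain ⟨J₂, hJ₂⟩ := exists_nat_ge (2 * Cr / s)
  obtain ⟨J₃, hJ₃⟩ := exists_nat_ge (2 * Cr / ((1 - AA (ι 0)) * Real.log 2))
  obtain ⟨J₄, hJ₄⟩ := share_ex (ψ := ψ) (κ := 1 / 2 ^ 8) hψ (by positivity)
  -- the labels
  have hlab := bls_cls (S := S) (c := c) (D := Db) (w := w) (v := fun _ => AA (ι 0))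
    (p₁ := fun _ => p) (p₂ := fun _ => p₂) (x₀ := fun _ => y) (Ψ := Ψ) hS 1
    (fun J F A V z z' G hG => (hΨ J F A V z z' G hG).cls)
    (fun k hk => hbl) (fun k hk => hl3) (fun k hk => hl2)
  have hpos : Bas S (fun _ F A => 0 < Pe F.p A) := ⟨1, one_pos, 0, fun J _ F A hA => hS.1 1 J F A hA⟩
  have htm := bas_lrg (hS.2 τ hτ0) (16 * K₁)
  refine ⟨32 * K₁, d, by positivity, hd, Bas.mono (max (max J₁ J₂) (max J₃ J₄))
    ((hpos.and hlab).and ((bas_lrg hbas 2).and htm)) ?_⟩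
  rintro J hJ F A ⟨⟨hA, hl⟩, hb, hT⟩ V z z' G hG
  have j1 : J₁ ≤ J := (le_max_left _ _).trans ((le_max_left _ _).trans hJ)
  have j2 : J₂ ≤ J := (le_max_right _ _).trans ((le_max_left _ _).trans hJ)
  have j3 : J₃ ≤ J := (le_max_left _ _).trans ((le_max_right _ _).trans hJ)
  have j4 : J₄ ≤ J := (le_max_right _ _).trans ((le_max_right _ _).trans hJ)
  have hJ0 : (0 : ℝ) ≤ J := Nat.cast_nonneg J
  have hCn : (0 : ℝ) ≤ C := Nat.cast_nonneg C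
  have hcn : (0 : ℝ) ≤ c₀ := Nat.cast_nonneg c₀
  have hNr : (0 : ℝ) ≤ N := Nat.cast_nonneg N
  have n1 : (C : ℝ) + c₀ + 12 + N ≤ s * J := by
    have h1 := hJ₁.trans (show (J₁ : ℝ) ≤ J by exact_mod_cast j1)
    rw [div_le_iff₀ hs] at h1
    linarith
  have n2 : 2 * Cr ≤ s * J := by
    have h1 := hJ₂.trans (show (J₂ : ℝ) ≤ J by exact_mod_cast j2)
    rw [div_le_iff₀ hs] at h1
    linarith
  have n3 : 2 * Cr ≤ (1 - AA (ι 0)) * Real.log 2 * J := by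
    have h1 := hJ₃.trans (show (J₃ : ℝ) ≤ J by exact_mod_cast j3)
    rw [div_le_iff₀ (by positivity)] at h1
    linarith
  obtain ⟨B₁, q', P', R', a1, a2, a3⟩ := hl V z z' G hG
  obtain ⟨B₀, Gn, Hn, xP, xH, pP, pH, b1, b2, nls, inc, bn0, bhp, bxc, bxn, bpg⟩ := hb B₁ a1 a2
  obtain ⟨c1, c2, c3, c4, c5, c6, c7, c8⟩ := a3 0 (by norm_num)
  have hp := Pe_nonneg F.isLaw
  have hB₀A : Sub B₀ A := fun ω hω => a1 ω (b1 ω hω)
  have hPB₀ : Pe F.p A ≤ 2 * K₁ * Pe F.p B₀ := by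
    calc Pe F.p A ≤ 2 * Pe F.p B₁ := a2
      _ ≤ 2 * (K₁ * Pe F.p B₀) := by linarith
      _ = _ := by ring
  have hB₀ : 0 < Pe F.p B₀ := by
    by_contra h
    push Not at h
    have h1 : Pe F.p B₀ = 0 := le_antisymm h (hp B₀)
    rw [h1, mul_zero] at hPB₀
    linarith
  have pw : ∀ {x y : ℕ}, x ≤ y → (2 : ℝ) ^ x ≤ 2 ^ y := fun h =>
    pow_le_pow_right₀ (by norm_num) h
  have hfl : ∀ {x y : ℝ}, x ≤ y → ⌊x * (J : ℝ)⌋₊ ≤ ⌊y * (J : ℝ)⌋₊ := fun h =>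
    Nat.floor_le_floor (mul_le_mul_of_nonneg_right h hJ0)
  have hAJ : ∀ k ≤ N, ⌊AA (ι k) * (J : ℝ)⌋₊ ≤ J := fun k hk => by
    refine Nat.floor_le_of_le ?_
    have h1 := hA1 _ (hι k hk).1
    nlinarith
  -- the family
  have kΨ := hΨ J F A V z z' G hG
  have dp : ∀ u, DepC c 3 (G u) := fun u b b' hn hb' => kΨ.dep u b b' hn fun j hj => by
    obtain ⟨l, hl, rfl⟩ := Finset.mem_image.1 hj
    exact hb' l (Finset.mem_range.1 hl)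
  have fc : ∀ ω, A ω → G (z (ptr F J ω)) =
      G (z' (cos F ⌊w * J⌋₊ ⌊AA (ι 0) * J⌋₊ (slam F ⌊AA (ι 0) * J⌋₊ ω))) := fun ω hω => by
    rw [cos_slam F (hfl hwA) (hAJ 0 (Nat.zero_le _)), kΨ.cls ω hω]
  -- the numbers
  obtain ⟨n, hn⟩ : ∃ n, n = ⌊(s₀ + 3 * s) * (J : ℝ)⌋₊ := ⟨_, rfl⟩
  have hn' : (n : ℝ) ≤ (s₀ + 3 * s) * J := by
    rw [hn]
    exact Nat.floor_le (by positivity)
  have hn'' : (s₀ + 3 * s) * J < n + 1 := by rw [hn]; exact Nat.lt_floor_add_one _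
  have hhn : ⌊s * (J : ℝ)⌋₊ ≤ n := by
    rw [hn]
    exact hfl (by linarith)
  have hs0J : 0 ≤ s₀ * J := mul_nonneg hs₀ hJ0
  have hsJ : 0 ≤ s * J := by linarith
  obtain ⟨vn, hvn⟩ : ∃ vn, vn = ⌊v * (J : ℝ)⌋₊ := ⟨_, rfl⟩
  have hvn' : (vn : ℝ) ≤ v * J := by
    rw [hvn]
    exact Nat.floor_le (by positivity)
  obtain ⟨W, hW⟩ : ∃ W, W = ⌊AA (ι 0) * (J : ℝ)⌋₊ := ⟨_, rfl⟩
  have hWr : (W : ℝ) ≤ AA (ι 0) * J := by
    rw [hW]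
    exact Nat.floor_le (by positivity)
  have hWJ : W ≤ J := by rw [hW]; exact hAJ 0 (Nat.zero_le _)
  have hw0 : ⌊WW (ι 0) * (J : ℝ)⌋₊ = W := by rw [hι0.2, hW]
  obtain ⟨g, hg⟩ : ∃ g : ℕ → ℕ → ℕ, g = fun k l =>
    ⌊(β l (AA (ι k)) (WW (ι k)) - d (ι k) l) * (J : ℝ)⌋₊ := ⟨_, rfl⟩
  obtain ⟨g₃, hg₃⟩ : ∃ g₃, g₃ = ⌊(β 3 (AA (ι 0)) (WW (ι 0)) - d (ι 0) 3) * (J : ℝ)⌋₊ :=
    ⟨_, rfl⟩
  have hg03 : g 0 3 = g₃ := by rw [hg, hg₃]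
  have hg0 : ∀ l ≤ 3, (g 0 l : ℝ) ≤ β l (AA (ι 0)) (WW (ι 0)) * J := fun l hl => by
    rw [hg]
    exact fl_hi (hd0 l hl).1.le (hβ0 l hl)
  obtain ⟨en, hen⟩ : ∃ en, en = ⌊e * (J : ℝ)⌋₊ := ⟨_, rfl⟩
  obtain ⟨En, hEn⟩ : ∃ En, En = ⌊(E + s) * (J : ℝ)⌋₊ := ⟨_, rfl⟩
  have hmaxr : ((max en En : ℕ) : ℝ) ≤ max e (E + s) * J := by
    have h0 : 0 ≤ max e (E + s) * J := mul_nonneg (he0.trans (le_max_left _ _)) hJ0
    have h1 : en ≤ ⌊max e (E + s) * (J : ℝ)⌋₊ := by rw [hen]; exact hfl (le_max_left _ _)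
    have h2 : En ≤ ⌊max e (E + s) * (J : ℝ)⌋₊ := by rw [hEn]; exact hfl (le_max_right _ _)
    exact (Nat.cast_le.2 (max_le h1 h2)).trans (Nat.floor_le h0)
  obtain ⟨xn, hxn⟩ : ∃ xn, xn = ⌊x * (J : ℝ)⌋₊ := ⟨_, rfl⟩
  have hxn' : (xn : ℝ) ≤ x * J := by
    rw [hxn]
    exact Nat.floor_le (by positivity)
  obtain ⟨An, hAn⟩ : ∃ An : ℕ → ℕ, An = fun k => ⌊AA (ι k) * (J : ℝ)⌋₊ := ⟨_, rfl⟩
  have hAn0 : An 0 = W := by rw [hAn, hW]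
  have hANr : ((An N - W : ℕ) : ℝ) ≤ (AA (ι N) - AA (ι 0)) * J + 1 := by
    have h1 : An N = ⌊AA (ι N) * (J : ℝ)⌋₊ := by rw [hAn]
    rw [h1, hW]
    exact fl_sub (J := J) h00 (hAA0 N le_rfl)
  have nod0 : NodW F c 3 D₁ Dr W W en En (g 0) ⌊s * (J : ℝ)⌋₊ (Real.exp (-(ψ * J))) B₀ (Gn (ι 0))
      (Hn (ι 0)) := by
    have h1 := (nls_up nls hDD₁).nod (ι 0) hι0.1
    have h2 : NodW F c 3 D₁ Dr ⌊AA (ι 0) * (J : ℝ)⌋₊ ⌊WW (ι 0) * (J : ℝ)⌋₊ ⌊e * (J : ℝ)⌋₊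
      ⌊(E + s) * (J : ℝ)⌋₊ (fun l => ⌊(β l (AA (ι 0)) (WW (ι 0)) - d (ι 0) l) * (J : ℝ)⌋₊)
      ⌊s * (J : ℝ)⌋₊ (Real.exp (-(ψ * J))) B₀ (Gn (ι 0)) (Hn (ι 0)) := h1
    rw [hw0, ← hW, ← hen, ← hEn] at h2
    rw [hg]
    exact h2
  have gl3 : g₃ ≤ q' 0 + n := by
    have h1 : (β 3 (AA (ι 0)) (WW (ι 0)) - d (ι 0) 3) * (J : ℝ) ≤ p * J + s₀ * J := by
      have h2 : (β 3 (AA (ι 0)) (WW (ι 0)) - d (ι 0) 3) * (J : ℝ) ≤ (p + s₀) * J :=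
        mul_le_mul_of_nonneg_right (by linarith [(hd0 3 le_rfl).1]) hJ0
      linarith
    have h3 : g₃ < q' 0 + n + 1 := by
      rw [hg₃]
      refine (Nat.floor_lt' (by omega)).2 ?_
      push_cast
      linarith
    omega
  -- the labels of the first ball
  obtain ⟨B₂, d1, d2, T⟩ := hnsz (F := F) (c := c) (Dr := Dr) (e := en) (E := En)
    (h := ⌊s * (J : ℝ)⌋₊) (W := W) (s₁ := n) (g₃ := g₃) (q' := q' 0) (b := 1)
    (κ := Real.exp (-(ψ * J))) (A := An) (g := g) (B₀ := B₀) (B := B₀) (G := fun k => Gn (ι k))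
    (H := fun k => Hn (ι k)) (P' := P' 0) (R' := R' 0) (Gx := fun y => G (z y))
    (Gl := fun S => G (z' (cos F ⌊w * J⌋₊ W S))) hc3 (Real.exp_pos _) hB₀ (fun _ h => h) hDr₁
    hAn0 nod0 (by
      refine ⟨fun y => (c2 y).trans (hDb.trans hDD₁), fun S => (c3 S).trans (hDb.trans hDD₁),
        c4, c5, fun ω hω => c7 ω (hB₀A ω hω), fun ω hω b' _ => ?_⟩
      have h1 := c6 ω (hB₀A ω hω)
      have h2 : P' 0 (ptr F J ω) = R' 0 (slam F W ω) := by rw [hW]; exact h1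
      rw [h2, sub_self, abs_zero]
      positivity) (fun y => (kΨ.deg _).trans hDD₁) (fun S => (kΨ.deg _).trans hDD₁)
    (fun y => dp _) (fun S => dp _) (fun ω hω => by
      have h1 := fc ω (hB₀A ω hω)
      rw [← hW] at h1
      exact h1) (by rw [hg03]; exact Nat.le_add_right _ _) gl3
    (fun ω hω => by
      have h1 := slp_num (b := 1) (J := J) (s₀ := s₀) (s := s) (M := M) (β := β) (AA := AA)
        (WW := WW) (d := d) (i := ι 0) (X := g₃) (Y := β 3 (AA (ι 0)) (WW (ι 0))) (y := y)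
        (B := |eval (bt F ω) (pderiv (some (c 2)) (P' 0 (ptr F J ω) - G (z (ptr F J ω))))|)
        (by
          have h2 := hg0 3 le_rfl
          rw [hg03] at h2
          push_cast
          linarith) hs₀ (by push_cast; linarith) hι0.1 hd' hbly (c8 ω (b1 ω hω))
      rw [← hn] at h1
      have h2 : g 0 2 = ⌊(β 2 (AA (ι 0)) (WW (ι 0)) - d (ι 0) 2) * (J : ℝ)⌋₊ := by rw [hg]
      rw [h2]
      exact h1)
  have hmass1 : Pe F.p B₀ ≤ 2 * Pe F.p B₂ := by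
    have h1 := hJ₄ J j4
    have h2 : Real.exp (-(ψ * J)) * 2 ^ 4 * Pe F.p B₀ ≤ 1 / 2 ^ 8 * 2 ^ 4 * Pe F.p B₀ := by
      gcongr
    linarith
  have hB₂ : 0 < Pe F.p B₂ := by linarith
  -- the first ball
  obtain ⟨s', hs'⟩ : ∃ s', s' = C₀ * (n + 1) := ⟨_, rfl⟩
  have hs1 : n + 1 ≤ s' := by
    rw [hs']
    exact Nat.le_mul_of_pos_left _ (by omega)
  have hNs : N ≤ s' := by
    have h1 : N ≤ n := by
      rw [hn]
      refine Nat.le_floor ?_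
      nlinarith
    omega
  have n5 : C₁ * (n + 1) ≤ s' := by
    rw [hs']
    exact Nat.mul_le_mul_right _ (by omega)
  have n6 : C₄ * (⌊s * (J : ℝ)⌋₊ + n + 1) ≤ s' := by
    have h1 : C₄ * (⌊s * (J : ℝ)⌋₊ + n + 1) ≤ C₄ * (3 * (n + 1)) :=
      Nat.mul_le_mul_left _ (by omega)
    rw [hs', hC₀]
    nlinarith [Nat.zero_le (C₁ * (n + 1)), Nat.zero_le (C₄ * (n + 1))]
  have I : Inc F c D₁ N W s' (vn + 1) An (fun _ => En) g B₀ (fun k => Gn (ι k))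
      (fun k => Hn (ι k)) pP pH := by
    rw [← hn, ← hvn, ← hW, ← hEn] at inc
    rw [hAn, hg]
    exact inc_mono inc le_rfl n5
  have I₂ := inc_less I d1
  have hX1 : C₂ * (⌊s * (J : ℝ)⌋₊ + s' + (vn + 1) + 1) + C₃ * (s' + 1) + s' + (vn + 1) + C₃ + 1 ≤
      C * (n + vn + 1) := by
    have h1 : ⌊s * (J : ℝ)⌋₊ + s' + (vn + 1) + 1 ≤ (C₀ + 3) * (n + vn + 1) := by
      rw [hs']
      nlinarith [Nat.zero_le (C₀ * vn)]
    have h2 : C₂ * (⌊s * (J : ℝ)⌋₊ + s' + (vn + 1) + 1) ≤ C₂ * ((C₀ + 3) * (n + vn + 1)) :=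
      Nat.mul_le_mul_left _ h1
    have h3 : C₃ * (s' + 1) ≤ C₃ * ((C₀ + 3) * (n + vn + 1)) := Nat.mul_le_mul_left _ (by omega)
    have h4 : C₃ ≤ C₃ * (n + vn + 1) := Nat.le_mul_of_pos_right _ (by omega)
    have h5 : s' + (vn + 1) ≤ (C₀ + 3) * (n + vn + 1) := by omega
    have h6 : C * (n + vn + 1) = C₂ * ((C₀ + 3) * (n + vn + 1)) +
        C₃ * ((C₀ + 3) * (n + vn + 1)) + (C₀ + 3) * (n + vn + 1) + C₃ * (n + vn + 1) +
        2 * (n + vn + 1) := by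
      rw [hC]
      ring
    rw [h6]
    omega
  have hCr' : ((C * (n + vn + 1) : ℕ) : ℝ) ≤ C * ((s₀ + 3 * s) * J + v * J + 1) := by
    push_cast
    exact mul_le_mul_of_nonneg_left (by linarith) hCn
  have hsum : ∀ l ≤ 3, C * (n + vn + 1) + max en En + xn + g 0 l + (An N - W) + c₀ + 4 ≤ J := by
    intro l hl
    have h1 := hg0 l hl
    have h2 := mul_le_mul_of_nonneg_right (hJ1 l hl).le hJ0
    have h3 : (C : ℝ) * (s * J) ≥ C + c₀ + 5 := by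
      have h4 : (C : ℝ) ≥ 2 := by
        have : 2 ≤ C := by omega
        exact_mod_cast this
      nlinarith
    have h5 : ((C * (n + vn + 1) + max en En + xn + g 0 l + (An N - W) + c₀ + 4 : ℕ) : ℝ) ≤
        (J : ℝ) := by
      rw [Nat.cast_add, Nat.cast_add, Nat.cast_add, Nat.cast_add, Nat.cast_add, Nat.cast_add]
      push_cast at hCr' ⊢
      have e1 : (β l (AA (ι 0)) (WW (ι 0)) + C * (s₀ + 4 * s + v) + max e (E + s) + x +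
        (AA (ι N) - AA (ι 0))) * (J : ℝ) = β l (AA (ι 0)) (WW (ι 0)) * J +
          (C * ((s₀ + 3 * s) * J + v * J + 1) + C * (s * J) - C) + max e (E + s) * J + x * J +
          (AA (ι N) - AA (ι 0)) * J := by ring
      rw [e1] at h2
      push_cast at hmaxr
      linarith
    exact_mod_cast h5
  have n7 : g 0 1 + s' + en + 1 ≤ J := by
    have h1 := hsum 1 (by norm_num)
    have h2 : en ≤ max en En := le_max_left _ _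
    omega
  have n8 : g₃ ≤ ⌊pN * (J : ℝ)⌋₊ + (xn + 1) := by
    have h1 : (β 3 (AA (ι 0)) (WW (ι 0)) - d (ι 0) 3) * (J : ℝ) ≤ (pN + x) * J :=
      mul_le_mul_of_nonneg_right (by linarith [(hd0 3 le_rfl).1]) hJ0
    have h2 := Nat.lt_floor_add_one (pN * (J : ℝ))
    have h3 : x * (J : ℝ) < xn + 1 := by rw [hxn]; exact Nat.lt_floor_add_one _
    have h4 : g₃ < ⌊pN * (J : ℝ)⌋₊ + (xn + 1) + 1 := by
      rw [hg₃]
      refine (Nat.floor_lt' (by omega)).2 ?_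
      push_cast
      nlinarith
    exact Nat.lt_succ_iff.1 h4
  have huni : ∀ k ≤ N, ∀ ω, B₀ ω → ∀ l < 3, ∀ b,
      NBx c (Gn (ι k) (ptr F J ω)) (g k) (An k) (F.t ω) l b →
      |eval b (Gn (ι k) (ptr F J ω) l) - eval b (Gn (ι 0) (ptr F J ω) l)| ≤
        2 ^ s' / 2 ^ g 0 l := by
    intro k hk ω hω l hl b' hb
    have h1 := nls.uni (ι 0) hι0.1 (ι k) (hι k hk).1 ⟨hAA0 k hk, by
      rw [hι0.2, (hι k hk).2]
      exact hAA0 k hk⟩ ω hω l (by omega) b' (by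
        rw [hg, hAn] at hb
        exact hb)
    have h2 : g 0 l = ⌊(β l (AA (ι 0)) (WW (ι 0)) - d (ι 0) l) * (J : ℝ)⌋₊ := by rw [hg]
    rw [h2]
    exact h1.trans (div_le_div_of_nonneg_right (pw (by omega)) (by positivity))
  have hgmn : ∀ k ≤ N, ∀ l < 3, g 0 l ≤ g k l + s' := by
    intro k hk l hl
    have h1 := fl_two (J := J) (by linarith) (hd0 l (by omega)).1.le
      (hd _ (hι k hk).1 l (by omega)).2.1 (hgm k hk l hl)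
    rw [← hn] at h1
    rw [hg]
    exact h1.trans (Nat.add_le_add_left (by omega) _)
  obtain ⟨B₃, zP, zH, f, f', kf, l1, l2, l3⟩ := hlast (F := F) (c := c) (Dr := Dr) (e := en)
    (E := En) (κ := Real.exp (-(ψ * J))) (B₀ := B₀) (N := 0) (W := W) (v := vn + 1) (g₃ := g₃)
    (gS := g₃) (A := An) (ee := fun _ => En) (g := g) (G := fun k => Gn (ι k))
    (H := fun k => Hn (ι k)) (pP := pP) (pH := pH) (xP := xP) (xH := xH)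
    (HS := fun S => Hn (ι 0) S 3) (US := fun S => Hn (ι 0) S 2)
    (B := B₂) (Gx := fun y => G (z y)) (Gl := fun S => G (z' (cos F ⌊w * J⌋₊ W S)))
    (gs := g 0) (Gs := Gn (ι 0)) (pN := ⌊pN * (J : ℝ)⌋₊) (x := xn + 1)
    (s := s') (h := ⌊s * (J : ℝ)⌋₊) (Real.exp_pos _) hB₀ d1 hDr₁
    (inc_cut I₂ (Nat.zero_le _)) (Nat.zero_le _) (by
      rw [← hn, ← hW] at bn0
      have h2 : g 0 0 = ⌊(β 0 (AA (ι 0)) (WW (ι 0)) - d (ι 0) 0) * (J : ℝ)⌋₊ := by rw [hg]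
      rw [h2]
      omega) n7 bhp (fun ω hω => by
      rw [hW]
      exact bxc ω (d1 ω hω))
    (fun ω hω => by
      have h1 := bxn ω (d1 ω hω)
      rw [← hn, ← hW] at h1
      exact h1.trans (pw n5))
    (fun ω hω b' h1 h2 => by
      have h3 := bpg ω (d1 ω hω) b' (by rw [← hW]; exact h1) (by rw [← hW]; exact h2)
      rw [← hn, ← hen] at h3
      exact h3.trans (pw (by omega)))
    (by rw [hAn0]; exact nod0) (nsu_mono T n6)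
    (fun ω hω => by
      show |F.x ω (c 3) - eval (bt F ω) (G (z (ptr F J ω)))| ≤ _
      rw [kΨ.cls ω (hB₀A ω (d1 ω hω))]
      exact kΨ.pos ω (hB₀A ω (d1 ω hω))) n8 (by rw [hg03]; exact Nat.le_add_right _ _)
    (fun k hk ω hω l hl b' hb => by
      have hk0 : k = 0 := Nat.le_zero.1 hk
      subst hk0
      rw [sub_self, abs_zero]
      positivity)
    (fun k hk l hl => hgmn k (by omega) l hl)
  have hmass2 : Pe F.p B₂ ≤ 2 * Pe F.p B₃ := by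
    have h1 := hJ₄ J j4
    have h2 : Real.exp (-(ψ * J)) * 2 ^ 4 * Pe F.p B₀ ≤ 1 / 2 ^ 8 * 2 ^ 4 * Pe F.p B₀ := by
      gcongr
    linarith
  have hB₃ : 0 < Pe F.p B₃ := by linarith
  have hB₃A : Sub B₃ A := fun ω hω => hB₀A ω (d1 ω (l1 ω hω))
  have hPB₃ : Pe F.p A ≤ 8 * K₁ * Pe F.p B₃ := by
    calc Pe F.p A ≤ 2 * K₁ * Pe F.p B₀ := hPB₀
      _ ≤ 2 * K₁ * (2 * (2 * Pe F.p B₃)) := by
        refine mul_le_mul_of_nonneg_left ?_ (by positivity)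
        linarith
      _ = _ := by ring
  -- all the balls
  have t1 : Cr * (τ * J + 1) ≤ ((J : ℝ) - W) * Real.log 2 := by
    have h1 : Cr * (τ * J + 1) = Cr * τ * J + Cr := by ring
    have h2 := mul_le_mul_of_nonneg_right hτ2 hJ0
    have h3 : (1 - AA (ι 0)) * J ≤ (J : ℝ) - W := by linarith
    have h4 := mul_le_mul_of_nonneg_right h3 hl2'.le
    rw [h1]
    linarith
  have t2 : Cr * (τ * J + 1) ≤ (s' : ℝ) := by
    have h1 : Cr * (τ * J + 1) = Cr * τ * J + Cr := by ring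
    have h2 := mul_le_mul_of_nonneg_right hτ1 hJ0
    have h3 : ((n + 1 : ℕ) : ℝ) ≤ s' := by exact_mod_cast hs1
    push_cast at h3
    rw [h1]
    linarith
  have t3 : ∀ i < 4, max En (C₂ * (⌊s * (J : ℝ)⌋₊ + s' + (vn + 1) + 1) + max en En + (xn + 1)) +
      (if i < 3 then g 0 i else g₃) + (An N - W) + c₀ ≤ J := by
    intro i hi
    have h1 := hsum i (by omega)
    have h2 : (if i < 3 then g 0 i else g₃) = g 0 i := by
      split_ifs with h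
      · rfl
      · have : i = 3 := by omega
        rw [this, hg03]
    rw [h2]
    have h3 : max En (C₂ * (⌊s * (J : ℝ)⌋₊ + s' + (vn + 1) + 1) + max en En + (xn + 1)) ≤
        C * (n + vn + 1) + max en En + xn := by
      refine max_le ?_ (by omega)
      have : En ≤ max en En := le_max_right _ _
      omega
    omega
  obtain ⟨B₄, f₁, f₁', kf₁, m1, m2, m3⟩ := hext (F := F) (c := c) (K₀ := K₀) (N := N) (W := W)
    (s := s') (v := vn + 1) (e := en) (A := An) (ee := fun _ => En) (g := g) (B := B₃)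
    (Gl := fun S => G (z' (cos F ⌊w * J⌋₊ W S))) (θ := τ * J) hB₃ hc l3
    (inc_less (inc_mono I hDD₂ le_rfl) fun ω hω => d1 ω (l1 ω hω)) hNs
    (fun y => (kΨ.deg _).trans (hDD₁.trans hDD₂))
    (fun S => (kΨ.deg _).trans (hDD₁.trans hDD₂)) (fun y => dp _) (fun ω hω => by
      have h1 := fc ω (hB₃A ω hω)
      rw [← hW] at h1
      exact h1) (fun k hk ω hω => huni k hk ω (d1 ω (l1 ω hω))) hgmn
    (fun B' hB' h1 h2 => hT B' (fun ω hω => hB₃A ω (h1 ω hω)) (by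
      calc Pe F.p A ≤ 8 * K₁ * Pe F.p B₃ := hPB₃
        _ ≤ 8 * K₁ * (2 * Pe F.p B') := mul_le_mul_of_nonneg_left h2 (by positivity)
        _ = _ := by ring) hB') (by positivity) t1 t2 t3
  have y1 : C₂ * (⌊s * (J : ℝ)⌋₊ + s' + (vn + 1) + 1) + s' + (vn + 1) + C₃ ≤
      C * (n + vn + 1) := by omega
  have y2 : C₂ * (⌊s * (J : ℝ)⌋₊ + s' + (vn + 1) + 1) + max en En + (xn + 1) + C₃ * (s' + 1) ≤
      C * (n + vn + 1) + max en En + xn := by omega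
  have m4 := m3.up y1 y2
  refine ⟨B₄, Gn, Hn, pP, pH, xP, xH, zP, zH, f₁, f₁', kf₁, g₃ + (⌊AA (ι N) * (J : ℝ)⌋₊ - W),
    fun ω hω => hB₃A ω (m1 ω hω), ?_, ?_⟩
  · calc Pe F.p A ≤ 8 * K₁ * Pe F.p B₃ := hPB₃
      _ ≤ 8 * K₁ * (4 * Pe F.p B₄) := by
        refine mul_le_mul_of_nonneg_left ?_ (by positivity)
        linarith
      _ = _ := by ring
  · rw [← hn, ← hvn, ← hW, ← hen, ← hEn, ← hxn, ← hg₃, ← hs']
    rw [hAn, hg] at m4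
    exact m4

end Pool.S16
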