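import Pool.Agent.H6.S1.Ext2

/-!
# The labels of one ball

`inc_cut`: a shorter list of balls. `nsu_zero`: the input `Nsu` of the closed polynomial for one ball,
from a second closed label which is blind at the samples.
-/

set_option autoImplicit false

namespace Pool.S16

open Finset Real MvPolynomial
open Pool.Agent.H49.Ent Pool.Agent.H32.Dense Pool.STK Pool.KA Pool.KSAT Pool.K2S Pool.PB Pool.S6C
open Pool.GEN Pool.CHT Pool.NVX
open Pool.STB (V3 Po Bx)
open Pool.STB77 (Inc cos cos_slam Tgt Nls NodW tgt_of)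
open Pool.STB65 (InpF N1O inc_less Nsu bl_one)

/-- A shorter list of balls. -/
theorem inc_cut {m J : ℕ} {F : Fam m J} {c : ℕ → Fin m} {D N N' W s v : ℕ} {A : ℕ → ℕ}
    {e : ℕ → ℕ} {g : ℕ → ℕ → ℕ} {B : F.Ω → Prop}
    {G : ℕ → PtT F → ℕ → MvPolynomial (Option (Fin m)) ℝ}
    {H : ℕ → LnT F → ℕ → MvPolynomial (Option (Fin m)) ℝ}
    {pP : PtT F → ℕ → MvPolynomial (Option (Fin m)) ℝ}
    {pH : LnT F → ℕ → MvPolynomial (Option (Fin m)) ℝ}
    (I : Inc F c D N W s v A e g B G H pP pH) (h : N' ≤ N) :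
    Inc F c D N' W s v A e g B G H pP pH :=
  { I with
    AJ := fun k hk => I.AJ k (hk.trans h)
    AW := fun k hk => I.AW k (hk.trans h)
    Am := fun k hk => I.Am k (hk.trans_le h)
    Av := fun k hk => I.Av k (hk.trans_le h)
    ok := fun k hk => I.ok k (hk.trans h)
    own := fun k hk => I.own k (hk.trans h)
    uni := fun k hk => I.uni k (hk.trans_le h)
    n0 := fun k hk => I.n0 k (hk.trans h)
    n1 := fun k hk => I.n1 k (hk.trans h)
    n1' := fun k hk => I.n1' k (hk.trans h) }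

/-- **The input of the closed polynomial for one ball.** -/
theorem nsu_zero (D : ℕ) (hD : 1 ≤ D) : ∃ C : ℕ, ∀ {m J : ℕ} {F : Fam m J} {c : ℕ → Fin m}
    {Dr e E h W s₁ g₃ q' b : ℕ} {κ : ℝ} {A : ℕ → ℕ} {g : ℕ → ℕ → ℕ} {B₀ B : F.Ω → Prop}
    {G : ℕ → PtT F → ℕ → MvPolynomial (Option (Fin m)) ℝ}
    {H : ℕ → LnT F → ℕ → MvPolynomial (Option (Fin m)) ℝ}
    {P' : PtT F → MvPolynomial (Option (Fin m)) ℝ} {R' : LnT F → MvPolynomial (Option (Fin m)) ℝ}
    {Gx : PtT F → MvPolynomial (Option (Fin m)) ℝ} {Gl : LnT F → MvPolynomial (Option (Fin m)) ℝ},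
    Set.InjOn c (Set.Iio 3) → 0 < κ → 0 < Pe F.p B₀ → Sub B B₀ → D ≤ Dr → A 0 = W →
    NodW F c 3 D Dr W W e E (g 0) h κ B₀ (G 0) (H 0) →
    Tgt F c 3 D W W q' (g 0) B (G 0) (fun ω => F.x ω (c 3)) P' R' →
    (∀ y, (Gx y).totalDegree ≤ D) → (∀ S, (Gl S).totalDegree ≤ D) → (∀ y, DepC c 3 (Gx y)) →
    (∀ S, DepC c 3 (Gl S)) → (∀ ω, B ω → Gx (ptr F J ω) = Gl (slam F W ω)) →
    g₃ ≤ g 0 3 + s₁ → g₃ ≤ q' + s₁ →
    (∀ ω, B ω → |eval (bt F ω) (pderiv (some (c 2)) (P' (ptr F J ω) - Gx (ptr F J ω)))| ≤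
      2 ^ (s₁ + g 0 2) / 2 ^ g₃) →
    ∃ B' : F.Ω → Prop, Sub B' B ∧ Pe F.p B ≤ Pe F.p B' + 2 * (κ * 2 ^ 4 * Pe F.p B₀) ∧
      Nsu F c D 0 W (C * (h + s₁ + 1)) b g₃ g₃ A g B' G (fun k y => G k y 3)
        (fun k S => H k S 3) (fun S => H 0 S 3) (fun S => H 0 S 2) Gx Gl (g 0) (G 0)
        (fun ω => F.x ω (c 3)) := by
  obtain ⟨C₁, hbl⟩ := bl_one D 4 hD
  refine ⟨C₁ + 1, ?_⟩
  intro m J F c Dr e E h W s₁ g₃ q' b κ A g B₀ B G H P' R' Gx Gl hc hκ hP₀ hB hDr hA0 nd hT d1 d2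
    d3 d4 hG hg3 hgq hbs
  have pw : ∀ {x y : ℕ}, x ≤ y → (2 : ℝ) ^ x ≤ 2 ^ y := fun h => pow_le_pow_right₀ (by norm_num) h
  have dv : ∀ {α : ℝ} {p q r t : ℕ}, α ≤ 2 ^ p / 2 ^ q → p + t ≤ r + q → α ≤ 2 ^ r / 2 ^ t := by
    intro α p q r t h1 h2
    refine h1.trans ?_
    rw [div_le_div_iff₀ (by positivity) (by positivity), ← pow_add, ← pow_add]
    exact pw h2
  obtain ⟨B', k1, k2, k3⟩ := hbl (F := F) (c := c) (i := 2) (a := W) (w := W)
    (e := e) (h := h) (q := g 0 3) (q' := q') (κ := κ)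
    (M := 2 ^ (s₁ + g 0 2) / 2 ^ g₃)
    (g := g 0) (B₀ := B₀) (B := B) (G := G 0) (H := H 0)
    (y := fun ω => F.x ω (c 3)) (P := fun y => G 0 y 3) (P' := P')
    (R := fun S => H 0 S 3) (R' := R') (Gx := Gx) (Gl := Gl) (by norm_num) hc hκ hP₀ hB
    (nd.rlF.mono hDr le_rfl) (nd.lst.sub hB) (tgt_of (nd.top.sub hB)) hT d1 d2 d3 d4 hG
    (by positivity) (dv le_rfl (by omega)) (dv le_rfl (by omega)) (fun ω hω => by
      rw [dir_ek]
      exact hbs ω hω)
  obtain ⟨S, hS⟩ : ∃ S, S = (C₁ + 1) * (h + s₁ + 1) := ⟨_, rfl⟩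
  have hS1 : s₁ ≤ S := by
    rw [hS]
    nlinarith [Nat.zero_le (C₁ * (h + s₁ + 1))]
  have hS2 : C₁ * (h + 1) + s₁ ≤ S := by
    rw [hS]
    nlinarith [Nat.zero_le (C₁ * s₁)]
  refine ⟨B', k1, k2, ?_⟩
  rw [← hS]
  have hs : Sub B' B₀ := fun ω hω => hB ω (k1 ω hω)
  have hz : ∀ k ≤ 0, k = 0 := fun k hk => Nat.le_zero.1 hk
  have hA : g₃ + b * (A 0 - W) = g₃ := by rw [hA0, Nat.sub_self, Nat.mul_zero, Nat.add_zero]
  have one : ∀ {x : ℝ} {q : ℕ}, x ≤ 1 / 2 ^ q → x ≤ 2 ^ 0 / 2 ^ q := fun h => by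
    rw [pow_zero]
    exact h
  exact
    { dP := fun k hk y => by rw [hz k hk]; exact nd.top.degG y 3
      dH := fun k hk S => by rw [hz k hk]; exact nd.top.degH S 3
      dS := fun S => nd.top.degH S 3
      dU := fun S => nd.top.degH S 2
      dx := d1
      dl := d2
      eP := fun k hk y => by rw [hz k hk]; exact nd.top.depG y 3
      eH := fun k hk S => by rw [hz k hk]; exact nd.top.depH S 3
      eS := fun S => nd.top.depH S 3
      eU := fun S => nd.top.depH S 2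
      ex := d3
      el := d4
      gc := fun ω hω => hG ω (k1 ω hω)
      pos := fun k hk ω hω => by
        rw [hz k hk, hA]
        exact dv (one (nd.top.pos ω (hs ω hω) 3 (by norm_num))) (by omega)
      agr := fun k hk ω hω b' hb => by
        rw [hz k hk] at hb ⊢
        rw [hA, hA0]
        rw [hA0] at hb
        exact dv (one (nd.top.agr ω (hs ω hω) 3 (by norm_num) b' hb)) (by omega)
      uni := fun k hk => absurd hk (Nat.not_lt_zero k)
      bl := fun k hk ω hω b' hb => by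
        rw [hz k hk] at hb ⊢
        rw [hA]
        rw [hA0] at hb
        have h4 := (k3 ω hω b' hb).1
        rw [dir_ek, mul_div_assoc', ← pow_add] at h4
        exact dv h4 (by omega)
      sta := fun ω hω b' hb => by
        rw [hA0] at hb
        rw [abs_sub_comm]
        exact dv (one (nd.top.agr ω (hs ω hω) 3 (by norm_num) b' hb)) (by omega)
      gS0 := by rw [hA]
      dGs := fun y l => nd.top.degG y l
      eGs := fun y l => nd.top.depG y l
      gsn := fun l hl => Nat.le_add_right _ _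
      nr := fun l hl ω hω b' hb => by
        rw [sub_self, abs_zero]
        positivity
      us := fun ω hω b' hb => by
        rw [hA0] at hb
        rw [abs_sub_comm]
        exact dv (one (nd.top.agr ω (hs ω hω) 2 (by norm_num) b' hb)) (by omega)
      mx := fun ω hω b' hb => by
        rw [hA0] at hb
        have h4 := (k3 ω hω b' hb).2
        rw [dir_ek, mul_div_assoc', ← pow_add] at h4
        exact dv h4 (by omega)
      gm := fun k hk => absurd hk (Nat.not_lt_zero k) }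

end Pool.S16
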