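import Pool.Agent.H6.S1.N1
import Pool.Agent.H98.STB.VcE
import Pool.Agent.H98.STB.VcC

/-!
# The input of the jets for a target of slope one, at a record

`n1_rec1`: `n1_one` at a record. `ev_one`: the event `VbE` with `b = 1`.
-/

set_option autoImplicit false

namespace Pool.S16

open Finset Real MvPolynomial
open Pool.Agent.H49.Ent Pool.Agent.H32.Dense Pool.STK Pool.KA Pool.KSAT Pool.K2S Pool.PB Pool.S6C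
open Pool.GEN Pool.RCD Pool.LA91 Pool.PKG Pool.CHT Pool.CHX
open Pool.GRD (LbP)
open Pool.ALT (Fml BlB)
open Pool.STB (LsN GrN nAA nWW nι nσ nι_le ball_zero ball_at ball_mono box_in nod_box lv_lin lv_mono
  FrN vbt VbT VbE Po V3 vb_event)
open Pool.STB77 (NodF)
open Pool.STB65 (N1O)

/-- **The input of the jets for a target of slope one**, at a record: for a family `Ψ` of labels
closed at the window `t + oV q`, of precision `pN`, and a blind closed label at the first ball. -/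
theorem n1_rec1 (D : ℕ) (hD : 1 ≤ D) : ∃ C₀ C D' K₀ : ℕ, 1 ≤ C₀ ∧ D ≤ D' ∧
    ∀ {S : PCl 4} {al : ℝ}
    {g₀ : ℝ → ℝ} {P₀ : List (Fin 4) × Fin 4 → ℝ → ℝ → ℝ} {θ : ℝ}
    {P₂ : ℕ → List (Fin 4) × Fin 4 → ℝ → ℝ → ℝ} {θ₂ Eb e₂ : ℕ → ℝ}
    {c : ℕ → Fin 4} {Pt : ℝ → ℝ → ℝ} {r : ℝ → ℝ} {h Kn g : ℝ} {L T : ℕ → ℝ → ℝ → ℝ}
    {Sl : ℕ → ℝ} {κ : ℕ → Kg} {G : Set ℝ} {S₀ N₀ : ℕ} {A V : ℕ → ℝ} {S₂ N' : ℕ} {V' : ℕ → ℝ}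
    {K ε q t : ℝ}
    (_ : RecG S al g₀ P₀ θ P₂ θ₂ Eb e₂ c Pt r h Kn g L T Sl κ G S₀ N₀ A V S₂ N' V' K ε q t)
    (_ : Sl 1 = 1) (_ : 0 ≤ ε)
    {oW y ρ : ℝ} {Ng P pc N M' Nx : ℕ} {Ax Vx : ℕ → ℝ}
    (_ : LsN oW y ρ Ng P Nx Ax Vx N₀ A V N' V' K) (_ : GrN y ρ Ng P pc N M')
    (_ : ∀ k < Ng + P + 2 + Nx, NodF S c 3 D L (Eb 3) (Eb 3) (nAA t q oW y ρ Ng P Ax k)
      (nWW t q oW ρ Ng P Vx k))
    {Db : ℕ} {oV : ℝ} {Ψ : Fml 4} {pN p p₂ yb : ℝ} (_ : Db ≤ D) (_ : oV ≤ oW)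
    (_ : ∀ (J : ℕ) (F : Fam 4 J) (A : F.Ω → Prop) (V : Type) (z : PtT F → V) (z' : LnT F → V)
      (G : V → MvPolynomial (Option (Fin 4)) ℝ), Ψ J F A V z z' G →
      LbP F ((range 3).image c) (c 3) D J ⌊(t + oV * q) * J⌋₊ ⌊pN * J⌋₊ A z z' G)
    (_ : BlB S c 2 (c 3) (t + oV * q) (t + oW * q) Db Db p p₂ yb Ψ)
    (_ : ∃ χ : ℝ, 0 < χ ∧ Bas S (fun J F A => ∃ (P₁ : ℕ) (V₁ : Type)
      (z₁ : PtT F → V₁) (z₁' : LnT F → V₁) (G₁ : V₁ → MvPolynomial (Option (Fin 4)) ℝ),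
      LbP F ((range 3).image c) (c 3) Db J ⌊(t + oW * q) * J⌋₊ P₁ A z₁ z₁' G₁ ∧
        (p + χ) * J ≤ P₁))
    (_ : ∃ χ : ℝ, 0 < χ ∧ Bas S (fun J F A => ∃ (P₁ : ℕ) (V₁ : Type)
      (z₁ : PtT F → V₁) (z₁' : LnT F → V₁) (G₁ : V₁ → MvPolynomial (Option (Fin 4)) ℝ),
      LbP F ((range 2).image c) (c 2) Db J ⌊(t + oW * q) * J⌋₊ P₁ A z₁ z₁' G₁ ∧
        (p₂ + χ) * J ≤ P₁))
    {xx s₀ s : ℝ} (_ : 0 ≤ xx)
    (_ : L 3 (t + oW * q) (t + oW * q) ≤ pN + xx)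
    (_ : L 3 (t + oW * q) (t + oW * q) ≤ p + s₀)
    (_ : yb + L 3 (t + oW * q) (t + oW * q) ≤ L 2 (t + oW * q) (t + oW * q) + s₀)
    (_ : 0 ≤ s₀) (_ : 4 * ε * q ≤ s₀) {v : ℝ} (_ : ρ * q ≤ v)
    {Dr : ℕ} (_ : D' ≤ Dr) (_ : 0 < s)
    (_ : C * (s₀ + 4 * s + v) + s + xx + N * (ρ * q) ≤ 3 * K * q),
    ∃ (K₁ : ℝ) (d : ℕ → ℕ → ℝ), 0 < K₁ ∧
      (∀ k < Ng + P + 2 + Nx, ∀ l ≤ 3, 0 < d k l ∧ d k l ≤ s ∧
        d k l < nAA t q oW y ρ Ng P Ax k) ∧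
      Bas S (fun J F A => ∀ (V : Type) (z : PtT F → V) (z' : LnT F → V)
        (G : V → MvPolynomial (Option (Fin 4)) ℝ), Ψ J F A V z z' G →
        ∃ (B : F.Ω → Prop) (Gn : ℕ → PtT F → ℕ → MvPolynomial (Option (Fin 4)) ℝ)
          (Hn : ℕ → LnT F → ℕ → MvPolynomial (Option (Fin 4)) ℝ)
          (pP : PtT F → ℕ → MvPolynomial (Option (Fin 4)) ℝ)
          (pH : LnT F → ℕ → MvPolynomial (Option (Fin 4)) ℝ) (xP : PtT F → ℝ) (xH : LnT F → ℝ)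
          (zP : PtT F → MvPolynomial (Option (Fin 4)) ℝ)
          (zH : LnT F → MvPolynomial (Option (Fin 4)) ℝ) (f : ℕ → PtT F → Po)
          (f' : ℕ → LnT F → Po) (kf : LnT F → Po) (gS : ℕ), Sub B A ∧
          Pe F.p A ≤ K₁ * Pe F.p B ∧
          N1O F c D' K₀ 1 N ⌊(t + oW * q) * J⌋₊ (C₀ * (⌊(s₀ + 3 * s) * J⌋₊ + 1))
            (⌊v * J⌋₊ + 1) (C * (⌊(s₀ + 3 * s) * J⌋₊ + ⌊v * J⌋₊ + 1)) ⌊Eb 3 * J⌋₊
            (C * (⌊(s₀ + 3 * s) * J⌋₊ + ⌊v * J⌋₊ + 1) + ⌊(Eb 3 + s) * J⌋₊ + ⌊xx * J⌋₊)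
            ⌊(L 3 (t + oW * q) (t + oW * q) - d 0 3) * J⌋₊ gS
            (fun k => ⌊nAA t q oW y ρ Ng P Ax (nι N M' k) * J⌋₊) (fun _ => ⌊(Eb 3 + s) * J⌋₊)
            (fun k l => ⌊(L l (nAA t q oW y ρ Ng P Ax (nι N M' k))
              (nWW t q oW ρ Ng P Vx (nι N M' k)) - d (nι N M' k) l) * J⌋₊) B
            Gn Hn pP pH xP xH (fun y => G (z y)) zP zH f f' kf) := by
  obtain ⟨C₀, C, D', K₀, hC₀, hDD', hn1⟩ := n1_one 4 D hD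
  refine ⟨C₀, C, D', K₀, hC₀, hDD', ?_⟩
  intro S al g₀ P₀ θ P₂ θ₂ Eb e₂ c Pt r h Kn g L T Sl κ G S₀ N₀ A V S₂ N' V' K ε q t R S1 hε
    oW y ρ Ng P pc N M' Nx Ax Vx H gr hnd Db oV Ψ pN p p₂ yb hDb hio hΨ hbl hl3 hl2 xx s₀ s hxx hx
    hlq hbly hs₀0 hs₀' v hv Dr hDr hs hC
  have hq := R.q0
  have hεq : 0 ≤ ε * q := by positivity
  have hs₀e : 4 * (ε * q) ≤ s₀ := by linarith
  have hr := gr.r0
  have hy := gr.y0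
  have hρq : 0 < ρ * q := by positivity
  have hv0 : 0 ≤ v := hρq.le.trans hv
  obtain ⟨z1, z2, z3, z4⟩ := ball_zero R H gr
  obtain ⟨w1, w2, w3⟩ := box_in R z3 z4
  have h34 : (3 : ℕ) < 4 := by norm_num
  have hNN : N ≤ N + (P - pc) := Nat.le_add_right _ _
  have hT := R.tg 3 (by norm_num) h34
  have hEb := hT.Eb0
  have hww : ∀ k ≤ N, nWW t q oW ρ Ng P Vx (nι N M' k) =
      nAA t q oW y ρ Ng P Ax (nι N M' k) := fun k hk => by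
    obtain ⟨h1, h2, -, -⟩ := ball_at R H gr (hk.trans hNN)
    rw [h1, h2]
  have hMx : ∀ k ≤ N, nι N M' k < Ng + P + 2 + Nx := fun k hk => by
    have := gr.ι_le (hk.trans hNN)
    omega
  have hAk : ∀ k ≤ N, nAA t q oW y ρ Ng P Ax (nι N M' k) = t + oW * q + k * (ρ * q) := fun k hk => by
    rw [(ball_at R H gr (hk.trans hNN)).1, nι_le hk]
    ring
  have hmn : ∀ k ≤ N, nAA t q oW y ρ Ng P Ax (nι N M' 0) ≤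
      nAA t q oW y ρ Ng P Ax (nι N M' k) := fun k hk =>
    ball_mono R H gr (Nat.zero_le k) (hk.trans hNN)
  have hres := hn1 (S := S) (c := c) (β := L) (e := Eb 3) (E := Eb 3) (Db := Db) R.tmh
    (R.inj.mono fun x hx => hx) hEb.le (Ng + P + 2 + Nx) (nAA t q oW y ρ Ng P Ax)
    (nWW t q oW ρ Ng P Vx) (fun k hk => (nod_box R H gr hk).1) (fun k hk => (nod_box R H gr hk).2.1)
    (fun k hk => (nod_box R H gr hk).2.2) (fun j hj k hk h1 h2 => lv_mono R h34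
      (nod_box R H gr hj).1 h2 h1 (nod_box R H gr hj).2.1 (nod_box R H gr hk).2.1
      (nod_box R H gr hk).2.2.le) hnd N (nι N M')
    (fun k hk => ⟨hMx k hk, hww k hk⟩)
    (fun k hk => ball_mono R H gr (Nat.le_succ k) (Nat.le_trans hk hNN)) v s₀ hv0 (fun k hk => by
      rw [hAk k hk.le, hAk (k + 1) hk]
      push_cast
      linarith) hs₀0 (fun k hk => by
      obtain ⟨h1, -, h3, h4⟩ := ball_at R H gr (hk.trans hNN)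
      rw [hww k hk, h1]
      have := (abs_le.1 (R.l0 _ (box_in R h3 h4).1)).2
      linarith) (by
      rw [z1, z2]
      have := (abs_le.1 (R.l0 _ w1)).1
      linarith) (by
      rw [z1, z2]
      exact R.low_at (by norm_num) w2.le le_rfl w3.le) (fun k hk => by
      obtain ⟨h1, -, h3, h4⟩ := ball_at R H gr (hk.trans hNN)
      rw [hww k hk, h1, z1, z2]
      have := abs_le.1 (lv_lin R (l := 1) (by norm_num) w1 (box_in R h3 h4).1)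
      rw [S1, one_mul] at this
      linarith [this.2]) (fun k hk => by
      obtain ⟨h1, -, h3, h4⟩ := ball_at R H gr (hk.trans hNN)
      rw [hww k hk, h1, z1, z2]
      have := abs_le.1 (lv_lin R (l := 1) (by norm_num) w1 (box_in R h3 h4).1)
      rw [S1, one_mul] at this
      linarith [this.1]) (t + oV * q) pN xx p p₂ yb Ψ (fun k hk l hl => by
      have h1 := hmn k hk
      refine (lv_mono R (show l < 4 by omega) (nod_box R H gr (hMx 0 (Nat.zero_le _))).1 ?_ h1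
        (nod_box R H gr (hMx 0 (Nat.zero_le _))).2.1 (nod_box R H gr (hMx k hk)).2.1
        (nod_box R H gr (hMx k hk)).2.2.le).trans (by linarith)
      rw [hww 0 (Nat.zero_le _), hww k hk]
      exact h1) (fun l hl => by
      rw [z1, z2]
      exact w2.le.trans (R.low_at (by omega) w2.le le_rfl w3.le)) (by
      rw [z1, z2]
      exact hlq) (by
      rw [z1, z2]
      exact hbly) (by
      rw [z1]
      nlinarith) hxx (by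
      rw [z1, z2]
      exact hx) hΨ hDb (by rw [z1]; exact hbl) (by rw [z1]; exact hl3) (by rw [z1]; exact hl2) Dr
    hDr s hs (fun l hl => by
      rw [hAk N le_rfl, z1, z2]
      have h1 := hT.room l hl _ w1
      have h2 : max (Eb 3) (Eb 3 + s) = Eb 3 + s := max_eq_right (by linarith)
      rw [h2]
      linarith)
  obtain ⟨K₁, d, hK₁, hd, hbas⟩ := hres
  refine ⟨K₁, d, hK₁, hd, Bas.mono 0 hbas ?_⟩
  intro J _ F A hA V z z' G hG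
  obtain ⟨B, Gn, Hn, pP, pH, xP, xH, zP, zH, f, f', kf, gS, h1, h2, h4⟩ := hA V z z' G hG
  have e0 : nι N M' 0 = 0 := nι_le (Nat.zero_le _)
  have hmax : max ⌊Eb 3 * (J : ℝ)⌋₊ ⌊(Eb 3 + s) * (J : ℝ)⌋₊ = ⌊(Eb 3 + s) * (J : ℝ)⌋₊ :=
    max_eq_right (Nat.floor_le_floor (mul_le_mul_of_nonneg_right (by linarith)
      (Nat.cast_nonneg J)))
  rw [hmax, e0] at h4
  have z1' : nAA t q oW y ρ Ng P Ax 0 = t + oW * q := by rw [← e0]; exact z1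
  have z2' : nWW t q oW ρ Ng P Vx 0 = t + oW * q := by rw [← e0]; exact z2
  rw [z1', z2'] at h4
  exact ⟨B, fun k => Gn (nι N M' k), fun k => Hn (nι N M' k), pP, pH, xP, xH, zP, zH, f, f', kf,
    gS, h1, h2, h4⟩

/-- `FrN` for a longer list. -/
theorem frn_up {J n N N₁ C₁ b W k y x g₃ e₁' e₁ st lz s v y₀ e X : ℕ} {A ee : ℕ → ℕ}
    {g : ℕ → ℕ → ℕ} {jb ji : ℕ → ℕ} {w ε : ℝ} (hN : N₁ ≤ N)
    (H : FrN J n N₁ C₁ b W k y x g₃ e₁' e₁ st lz s v y₀ e X A ee g jb ji w ε) :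
    FrN J n N C₁ b W k y x g₃ e₁' e₁ st lz s v y₀ e X A ee g jb ji w ε :=
  { H with
    jb0 := fun i hi => by
      obtain ⟨h1, h2⟩ := H.jb0 i hi
      exact ⟨h1.trans hN, h2⟩
    ji0 := fun i hi => by
      obtain ⟨h1, h2⟩ := H.ji0 i hi
      exact ⟨h1.trans hN, h2⟩ }

/-- **The event for a target of slope one**, at a record. -/
theorem ev_one (D : ℕ) (hD : 1 ≤ D) : ∃ C₀ C D' C₁ K₂ : ℕ, 1 ≤ C₀ ∧ D ≤ D' ∧ D' ≤ K₂ ∧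
    ∀ {S : PCl 4} {al : ℝ}
    {g₀ : ℝ → ℝ} {P₀ : List (Fin 4) × Fin 4 → ℝ → ℝ → ℝ} {θ : ℝ}
    {P₂ : ℕ → List (Fin 4) × Fin 4 → ℝ → ℝ → ℝ} {θ₂ Eb e₂ : ℕ → ℝ}
    {c : ℕ → Fin 4} {Pt : ℝ → ℝ → ℝ} {r : ℝ → ℝ} {h Kn g : ℝ} {L T : ℕ → ℝ → ℝ → ℝ}
    {Sl : ℕ → ℝ} {κ : ℕ → Kg} {G : Set ℝ} {S₀ N₀ : ℕ} {A V : ℕ → ℝ} {S₂ N' : ℕ} {V' : ℕ → ℝ}
    {K ε q t : ℝ}
    (_ : RecG S al g₀ P₀ θ P₂ θ₂ Eb e₂ c Pt r h Kn g L T Sl κ G S₀ N₀ A V S₂ N' V' K ε q t)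
    (_ : Sl 1 = 1) (_ : 0 ≤ ε)
    {oW y ρ : ℝ} {Ng P pc N M' Nx : ℕ} {Ax Vx : ℕ → ℝ}
    (_ : LsN oW y ρ Ng P Nx Ax Vx N₀ A V N' V' K) (_ : GrN y ρ Ng P pc N M')
    (_ : ∀ k < Ng + P + 2 + Nx, NodF S c 3 D L (Eb 3) (Eb 3) (nAA t q oW y ρ Ng P Ax k)
      (nWW t q oW ρ Ng P Vx k))
    {Db : ℕ} {oV : ℝ} {Ψ : Fml 4} {pN p p₂ yb : ℝ} (_ : Db ≤ D) (_ : oV ≤ oW)
    (_ : ∀ (J : ℕ) (F : Fam 4 J) (A : F.Ω → Prop) (V : Type) (z : PtT F → V) (z' : LnT F → V)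
      (G : V → MvPolynomial (Option (Fin 4)) ℝ), Ψ J F A V z z' G →
      LbP F ((range 3).image c) (c 3) D J ⌊(t + oV * q) * J⌋₊ ⌊pN * J⌋₊ A z z' G)
    (_ : BlB S c 2 (c 3) (t + oV * q) (t + oW * q) Db Db p p₂ yb Ψ)
    (_ : ∃ χ : ℝ, 0 < χ ∧ Bas S (fun J F A => ∃ (P₁ : ℕ) (V₁ : Type)
      (z₁ : PtT F → V₁) (z₁' : LnT F → V₁) (G₁ : V₁ → MvPolynomial (Option (Fin 4)) ℝ),
      LbP F ((range 3).image c) (c 3) Db J ⌊(t + oW * q) * J⌋₊ P₁ A z₁ z₁' G₁ ∧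
        (p + χ) * J ≤ P₁))
    (_ : ∃ χ : ℝ, 0 < χ ∧ Bas S (fun J F A => ∃ (P₁ : ℕ) (V₁ : Type)
      (z₁ : PtT F → V₁) (z₁' : LnT F → V₁) (G₁ : V₁ → MvPolynomial (Option (Fin 4)) ℝ),
      LbP F ((range 2).image c) (c 2) Db J ⌊(t + oW * q) * J⌋₊ P₁ A z₁ z₁' G₁ ∧
        (p₂ + χ) * J ≤ P₁))
    {xx s₀ s : ℝ} (_ : 0 ≤ xx)
    (_ : L 3 (t + oW * q) (t + oW * q) ≤ pN + xx)
    (_ : L 3 (t + oW * q) (t + oW * q) ≤ p + s₀)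
    (_ : yb + L 3 (t + oW * q) (t + oW * q) ≤ L 2 (t + oW * q) (t + oW * q) + s₀)
    (_ : 0 ≤ s₀) (_ : 4 * ε * q ≤ s₀) {v : ℝ} (_ : ρ * q ≤ v)
    {Dr : ℕ} (_ : D' ≤ Dr) (_ : 0 < s)
    (_ : C * (s₀ + 4 * s + v) + s + xx + N * (ρ * q) ≤ 3 * K * q)
    {N₁ : ℕ} (_ : N₁ ≤ N)
    (_ : ∀ (J : ℕ) (F : Fam 4 J) (A B : F.Ω → Prop) (V : Type) (z : PtT F → V)
      (z' : LnT F → V) (G : V → MvPolynomial (Option (Fin 4)) ℝ), Sub B A →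
      Ψ J F A V z z' G → Ψ J F B V z z' G)
    (_ : Bas S (fun J F A => ∃ (V : Type) (z : PtT F → V) (z' : LnT F → V)
      (G : V → MvPolynomial (Option (Fin 4)) ℝ), Ψ J F A V z z' G)),
    ∃ (K₁ : ℝ) (d : ℕ → ℕ → ℝ), 0 < K₁ ∧
      (∀ k < Ng + P + 2 + Nx, ∀ l ≤ 3, 0 < d k l ∧ d k l ≤ s ∧
        d k l < nAA t q oW y ρ Ng P Ax k) ∧
      ∀ {K' n : ℕ} (_ : K₂ ≤ K') {kk yy x e₁' e₁ e₂' st lz : ℕ → ℕ} {jb ji : ℕ → ℕ} {w' ε' : ℝ}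
        (_ : 0 < ε') (_ : w' < 1) {J₀ : ℕ}
        (_ : ∀ J ≥ J₀, FrN J n N₁ C₁ 1 ⌊(t + oW * q) * J⌋₊ (kk J) (yy J) (x J)
          ⌊(L 3 (t + oW * q) (t + oW * q) - d 0 3) * J⌋₊ (e₁' J) (e₁ J) (st J) (lz J)
          (C₀ * (⌊(s₀ + 3 * s) * J⌋₊ + 1)) (⌊v * J⌋₊ + 1)
          (C * (⌊(s₀ + 3 * s) * J⌋₊ + ⌊v * J⌋₊ + 1)) ⌊Eb 3 * J⌋₊
          (C * (⌊(s₀ + 3 * s) * J⌋₊ + ⌊v * J⌋₊ + 1) + ⌊(Eb 3 + s) * J⌋₊ + ⌊xx * J⌋₊)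
          (fun k => ⌊nAA t q oW y ρ Ng P Ax (nι N M' k) * J⌋₊) (fun _ => ⌊(Eb 3 + s) * J⌋₊)
          (fun k l => ⌊(L l (nAA t q oW y ρ Ng P Ax (nι N M' k))
            (nWW t q oW ρ Ng P Vx (nι N M' k)) - d (nι N M' k) l) * J⌋₊) jb ji w' ε'),
        Bas S (fun J F A' => ∃ (V : Type) (z : PtT F → V) (z' : LnT F → V)
          (G : V → MvPolynomial (Option (Fin 4)) ℝ), Ψ J F A' V z z' G ∧
          ∃ B : F.Ω → Prop, Sub B A' ∧ 1 / (4 * K₁) * Pe F.p A' ≤ Pe F.p B ∧ ∃ t' : VbT F,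
            VbE F c B K' n N 1 ⌊(t + oV * q) * J⌋₊ z z' G t' ∧
            ∃ Gn Hn pP pH zP zH f f' kf, t' = vbt F c ⌊(t + oW * q) * J⌋₊ (kk J) (yy J) (x J)
              ⌊(L 3 (t + oW * q) (t + oW * q) - d 0 3) * J⌋₊ (e₁' J) (e₁ J) (e₂' J) (st J) (lz J)
              (fun k => ⌊nAA t q oW y ρ Ng P Ax (nι N M' k) * J⌋₊)
              (fun k l => ⌊(L l (nAA t q oW y ρ Ng P Ax (nι N M' k))
                (nWW t q oW ρ Ng P Vx (nι N M' k)) - d (nι N M' k) l) * J⌋₊)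
              jb ji Gn Hn pP pH zP zH f f' kf) := by
  obtain ⟨C₀, C, D', K₀, hC₀, hDD', hn1⟩ := n1_rec1 D hD
  obtain ⟨C₁, hev⟩ := vb_event (m := 4) D'
  refine ⟨C₀, C, D', C₁, max D' K₀, hC₀, hDD', le_max_left _ _, ?_⟩
  intro S al g₀ P₀ θ P₂ θ₂ Eb e₂ c Pt r h Kn g L T Sl κ G S₀ N₀ A V S₂ N' V' K ε q t R S1 hε
    oW y ρ Ng P pc N M' Nx Ax Vx H gr hnd Db oV Ψ pN p p₂ yb hDb hio hΨ hbl hl3 hl2 xx s₀ s hxx hx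
    hlq hbly hs₀0 hs₀' v hv Dr hDr hs hC N₁ hN₁ hher hex
  obtain ⟨K₁, d, hK₁, hd, hbas⟩ := hn1 R S1 hε H gr hnd hDb hio hΨ hbl hl3 hl2 hxx hx hlq hbly
    hs₀0 hs₀' hv hDr hs hC
  refine ⟨K₁, d, hK₁, hd, ?_⟩
  intro K' n hK' kk yy x e₁' e₁ e₂' st lz jb ji w' ε' hε' hw' J₀ hfr
  have hDK : D' ≤ K' := (le_max_left _ _).trans hK'
  have hKK : K₀ ≤ K' := (le_max_right _ _).trans hK'
  refine hev (K := K') (K₀ := K₀) (n := n) (N := N) (b := 1) hDK (by omega) R.tmh R.ne (c := c)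
    (Ψ := Ψ) (wn := t + oV * q) (w := w') (ε := ε') (K₁ := K₁) hε' hw' hK₁ hher ?_ hex
    (W := fun J => ⌊(t + oW * q) * J⌋₊) (k := kk) (y := yy) (x := x)
    (g₃ := fun J => ⌊(L 3 (t + oW * q) (t + oW * q) - d 0 3) * J⌋₊) (e₁' := e₁') (e₁ := e₁)
    (e₂ := e₂') (st := st) (lz := lz) (s := fun J => C₀ * (⌊(s₀ + 3 * s) * J⌋₊ + 1))
    (v := fun J => ⌊v * J⌋₊ + 1)
    (y₀ := fun J => C * (⌊(s₀ + 3 * s) * J⌋₊ + ⌊v * J⌋₊ + 1)) (e := fun J => ⌊Eb 3 * J⌋₊)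
    (X := fun J => C * (⌊(s₀ + 3 * s) * J⌋₊ + ⌊v * J⌋₊ + 1) + ⌊(Eb 3 + s) * J⌋₊ + ⌊xx * J⌋₊)
    (A := fun J k => ⌊nAA t q oW y ρ Ng P Ax (nι N M' k) * J⌋₊)
    (ee := fun J _ => ⌊(Eb 3 + s) * J⌋₊)
    (g := fun J k l => ⌊(L l (nAA t q oW y ρ Ng P Ax (nι N M' k))
      (nWW t q oW ρ Ng P Vx (nι N M' k)) - d (nι N M' k) l) * J⌋₊) (jb := jb) (ji := ji) hbas
    (J₀ := J₀) (fun J hJ => frn_up hN₁ (hfr J hJ))
  intro J F A' V z z' Gz hG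
  have h1 := hΨ J F A' V z z' Gz hG
  exact ⟨fun v => (h1.deg v).trans (hDD'.trans hDK),
    fun v b b' hn hb => h1.dep v b b' hn fun j hj => by
      rw [mem_image] at hj
      obtain ⟨l, hl, rfl⟩ := hj
      exact hb l (mem_range.1 hl), h1.cls⟩

end Pool.S16
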