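import Pool.Agent.H6.S1.Void
import Pool.Agent.H98.STB.VcL
import Pool.Agent.H98.STB.VcB
import Pool.Agent.H65.VS.Prt
import Pool.Agent.H65.VS.Vni

/-!
# A target of slope one, small rate: void

`vmV_one`: `VmV 2` for a target `c 3` of slope one, over `c 0`, `c 1` of slope one, any kinds.
`voidZ_one`: the windows of small rate are void. `partB_one`: the part.
-/

set_option autoImplicit false

namespace Pool.S16

open Finset Real MvPolynomial
open Pool.Agent.H49.Ent Pool.Agent.H32.Dense Pool.STK Pool.KA Pool.KSAT Pool.K2S Pool.PB Pool.S6C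
open Pool.GEN Pool.RCD Pool.LA91 Pool.OWN68 Pool.PKG Pool.CHT Pool.CHX Pool.ASM
open Pool.ALT (Fml AlO NzF AdmL LowE)
open Pool.V0F (ChUQ AttUQ)
open Pool.STB (VmV voidZ_B prA prV pr_bd nod_rec grV gr_bd lsn_all grn_all ful_rec)

set_option maxHeartbeats 1000000 in
/-- **A target of slope one**, over two places of slope one: no record with natural labels of small
rate (`VmV`). -/
theorem vmV_one {h hb : ℝ} {Sl : ℕ → ℝ} {κ : ℕ → Kg} (hb0 : 0 < hb) (hb1 : hb ≤ 1)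
    (S1 : Sl 1 = 1) (S3 : Sl 3 = 1) : VmV 2 h hb Sl κ (ChUQ : PropG 4 Unit) := by
  intro al hal K₀ hK₀ S₀ hS₀
  refine ⟨3, 3 * 3, prA 3, prV 3, by norm_num, pr_bd (by norm_num) (by norm_num),
    fun S₂ hS₂ => ⟨1, fun Db hDb => ?_⟩⟩
  obtain ⟨D₀, hD₀, hnod⟩ := nod_rec 3 S₀ S₂ (by norm_num) hS₀ (hS₀.trans hS₂)
  obtain ⟨D, hD⟩ : ∃ D : ℕ, D = max D₀ (Db * max 1 Db) := ⟨_, rfl⟩
  have hD1 : 1 ≤ D := by rw [hD]; exact hD₀.trans (le_max_left _ _)
  have hDb2 : Db * max 1 Db ≤ D := by rw [hD]; exact le_max_right _ _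
  have hDn : D ≥ D₀ := by rw [hD]; exact le_max_left _ _
  obtain ⟨D', n, v, s₁, hDD', hn, hv0, hv1, hs₁, hsv, hvoid⟩ :=
    void_aloO D hD1 hb0 hb1 (y0 := 1) one_pos
  have hlog : 0 < Real.log 2 := Real.log_pos one_lt_two
  have hn4 : (0 : ℝ) < (n : ℝ) + 4 := by positivity
  -- the rate of the losses
  obtain ⟨sr, hsr⟩ : ∃ sr : ℝ, sr = min s₁ (1 / 16) := ⟨_, rfl⟩
  have hsr0 : 0 < sr := by
    rw [hsr]
    exact lt_min hs₁ (by positivity)
  have hsr1 : sr ≤ s₁ := by rw [hsr]; exact min_le_left _ _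
  have hsr7 : sr ≤ 1 / 16 := by rw [hsr]; exact min_le_right _ _
  refine ⟨1, 5, 1 / 2, 11 / 2, 1 / 2, min (1 / 2) (sr / 4), 1,
    min (1 / 8) (hb * Real.log 2 / (64 * (n + 4))), 1, one_pos, by norm_num, by norm_num,
    by norm_num, by norm_num, lt_min (by norm_num) (by positivity),
    (min_le_left _ _).trans (by norm_num), one_pos, ?_, lt_min (by norm_num) (by positivity),
    one_pos, ?_, ?_, ?_⟩
  · show 2 * min (1 / 2 : ℝ) (sr / 4) ≤ Sl 3 * 1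
    rw [S3]
    have := min_le_left (1 / 2 : ℝ) (sr / 4)
    linarith
  · show (1 / 2 : ℝ) + 1 / 2 ≤ Sl 3 * 1
    rw [S3]
    norm_num
  · show (11 / 2 : ℝ) + 1 / 2 ≤ Sl 3 * (5 + 1)
    rw [S3]
    norm_num
  intro dt ℓ hdt hdt1 hℓ hℓ1
  have hdt8 : dt ≤ 1 / 8 := hdt1.trans (min_le_left _ _)
  have hdtn : 64 * (n + 4) * (dt * (1 / 2)) ≤ hb * 1 * Real.log 2 := by
    have h1 : dt ≤ hb * Real.log 2 / (64 * (n + 4)) := hdt1.trans (min_le_right _ _)
    rw [le_div_iff₀ (by positivity)] at h1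
    have : 0 < hb * Real.log 2 := by positivity
    linarith
  refine ⟨sr / 16, by positivity, fun hh hhh hhh1 => ?_⟩
  -- the fine grid
  obtain ⟨M₀, hM₀⟩ : ∃ M₀ : ℕ, 1 / s₁ ≤ M₀ := exists_nat_ge _
  obtain ⟨M'', hM''⟩ : ∃ M'' : ℕ, M'' = M₀ + 1 := ⟨_, rfl⟩
  obtain ⟨M', hM'⟩ : ∃ M' : ℕ, M' = (n + 4) * M'' := ⟨_, rfl⟩
  have hM1 : 1 ≤ M' := by
    rw [hM', hM'']
    exact Nat.mul_pos (by omega) (Nat.succ_pos _)
  have hM0 : (0 : ℝ) < M' := by exact_mod_cast hM1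
  have hρs : 1 / (M' : ℝ) ≤ s₁ := by
    rw [div_le_iff₀ hM0]
    rw [div_le_iff₀ hs₁] at hM₀
    have h1 : (M₀ : ℝ) ≤ M' := by
      have : M₀ ≤ M' := by
        rw [hM', hM'']
        calc M₀ ≤ 1 * (M₀ + 1) := by omega
          _ ≤ (n + 4) * (M₀ + 1) := Nat.mul_le_mul_right _ (by omega)
      exact_mod_cast this
    have h2 := mul_le_mul_of_nonneg_right h1 hs₁.le
    linarith
  obtain ⟨K₁, hK₁, hvoid⟩ := hvoid 3 2 (by norm_num)
  refine ⟨max K₁ (max 3 K₀), 3 * M' + 1, grV M',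
    gr_bd (by
      rw [Nat.cast_ofNat]
      exact (le_max_left _ _).trans (le_max_right _ _)) (hK₁.trans (le_max_left _ _)) hM1,
    fun K' hK' => ?_⟩
  have hK'1 : K₁ ≤ K' := (le_max_left _ _).trans hK'
  have hK'B : (3 : ℝ) ≤ K' := ((le_max_left _ _).trans (le_max_right _ _)).trans hK'
  have hK'0 : K₀ ≤ K' := ((le_max_right _ _).trans (le_max_right _ _)).trans hK'
  have hK'11 : 1 ≤ K' := hK₁.trans hK'1
  refine ⟨min (v / 16) (sr / 32), lt_min (by positivity) (by positivity), fun ε hε hε1 => ?_⟩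
  have hεv : 16 * ε ≤ v := by
    have := hε1.trans (min_le_left _ _)
    linarith
  have hεs : ε ≤ sr / 32 := hε1.trans (min_le_right _ _)
  intro S g₀ P₀ θ P₂ θ₂ Eb e₂ c Pt rt L T G g hG hg hder
  refine ⟨fun _ => (), 1, fun _ => -1, fun _ => 1, fun _ _ => by norm_num, fun k₀ hQ μ hμ => ?_⟩
  have hch := hQ 0 one_pos
  rcases le_or_gt g 0 with hg0 | hg0
  · refine ⟨1, one_pos, ?_⟩
    intro q t x hq1 hx N A V Na Va S₁ hSS R
    exfalso
    have h1 := (abs_le.1 R.near).2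
    have h2 := R.t0
    have h3 := mul_le_mul_of_nonneg_right hK'0 R.q0.le
    linarith
  refine ⟨min (μ / 3) (g / (K₀ + K' + 3)), lt_min (by positivity) (by positivity), ?_⟩
  intro q t x hqq hx N A V Na Va S₁ hSS R hVa hl1 hl2 i j e₀ π₀ Ψ w p₁ p₂ eN uN pN pa₁ pa₂ ea ua pa
    hi hj hVi hVj hmar O
  have hq := R.q0
  have hqμ : 3 * q ≤ μ := by
    have h1 := hqq.le.trans (min_le_left _ _)
    rw [le_div_iff₀ (by positivity)] at h1
    linarith
  have hqg : (K₀ + K' + 3) * q ≤ g := by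
    have h1 := hqq.le.trans (min_le_right _ _)
    rw [le_div_iff₀ (by positivity)] at h1
    linarith
  have htK : 3 * q ≤ t - K' * q := by
    have h1 := (abs_le.1 R.near).1
    linarith
  have hεq : 0 ≤ ε * q := by positivity
  have hXq : min (1 / 2) (sr / 4) * q ≤ 1 / 2 * q :=
    mul_le_mul_of_nonneg_right (min_le_left _ _) hq.le
  have hX0 : 0 ≤ min (1 / 2) (sr / 4) := le_min (by norm_num) (by positivity)
  have H := lsn_all (B := 3) (R₀ := 1) (P := 0) (Nx := 0) hM1 (by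
    rw [Nat.cast_ofNat]
    exact hK'B) hK'11 (by norm_num) (by norm_num) hl1 hl2
  have gr := grn_all (P := 0) (pc := 0) hM1 le_rfl
  have e0 : (-1 + ((1 : ℕ) : ℝ)) = 0 := by
    rw [Nat.cast_one]
    ring
  rw [e0] at H
  have hXμ : min (1 / 2) (sr / 4) * q ≤ μ := by linarith
  rw [hM'] at H gr hρs
  refine hvoid R hK'1 hε.le hεv S1 S3 (oW := 0) (by rw [abs_zero]; norm_num)
    hρs H gr (hnod R (by norm_num) H D hDn) O hDb2 hhh hX0 zero_le_one (by rw [hVi]; norm_num)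
    (by norm_num) (by norm_num) hXμ hμ.le (fun k hk => ?_) (s₀ := sr * q) (s := sr * q)
    (sr := sr) (by rw [hVi, abs_neg, abs_one]; exact hK'11) (by positivity) ?_ ?_ ?_
    hsr0 hsr1 rfl le_rfl ?_ hdtn
    (fun k hk => ful_rec R hSS hch hk)
  · obtain ⟨m1, m2, m3, m4, m5, m6⟩ := hmar k hk
    have h2 : L (2 + 1) (t + Va k * q) (t + Va k * q) = L 3 (t + Va k * q) (t + Va k * q) := rfl
    rw [h2] at m1 m4 m5 m6
    exact ⟨by linarith, by linarith, by linarith⟩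
  · rw [hVi]
    linarith
  · have h1 : min (1 / 2) (sr / 4) ≤ sr / 4 := min_le_right _ _
    exact mul_le_mul_of_nonneg_right (by linarith) hq.le
  · have h1 : hh * q ≤ sr / 16 * q := mul_le_mul_of_nonneg_right hhh1 hq.le
    have h2 : sr * q ≤ 1 / 16 * q := mul_le_mul_of_nonneg_right hsr7 hq.le
    linarith
  · rw [hVi]
    linarith

/-- **Windows of small rate are void**: a target of slope one, any kinds. -/
theorem voidZ_one {h β' : ℝ} {Sl : ℕ → ℝ} {κ : ℕ → Kg} {Dv : ℕ} (S1 : Sl 1 = 1)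
    (S3 : Sl 3 = 1) (hβ : β' < Sl 3 * Real.log 2) :
    VoidZ 4 h Sl κ (sumQ (ChUQ : PropG 4 Unit) (sumQ (ChUQ : PropG 4 Unit)
      (AttUQ : PropG 4 Unit))) (fun e : Pool.ALT.PosR => LowE (AdmL 4) β' Dv e) := by
  have hs : 0 < Sl 3 := by
    rw [S3]
    exact one_pos
  obtain ⟨hb, hb0, hb1, h1⟩ := Pool.STB65.hb_ex hs hβ
  exact voidZ_B (r := 2) (by norm_num) hb0 hb1 h1 hs (vmV_one hb0 hb1 S1 S3)

/-- **Small rate, a target of slope one**, any kinds: void. -/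
theorem partB_one (κ : ℕ → Kg) : PartB κ (fun Sl => Sl 1 = 1 ∧ Sl 3 = 1) (fun _ => AdmL 4)
    (fun Sl => Sl 3 * Real.log 2) := by
  refine ⟨Unit ⊕ (Unit ⊕ Unit), inferInstance, sumQ (ChUQ : PropG 4 Unit) (sumQ
    (ChUQ : PropG 4 Unit) (AttUQ : PropG 4 Unit)), ?_, ?_, ?_⟩
  · exact aePG_sum (Pool.V0F.aePG_chU 4) (Pool.V0F.her_chU 4) (aePG_sum (Pool.V0F.aePG_chU 4)
      (Pool.V0F.her_chU 4) (Pool.V0F.aePG_attU 4))
  · exact her_sum (Pool.V0F.her_chU 4) (her_sum (Pool.V0F.her_chU 4) (Pool.V0F.her_attU 4))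
  intro h h0 h1 Sl hS b D
  have hb := b.2
  exact voidZ_one hS.1 hS.2 (by linarith)

end Pool.S16
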