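import Pool.Agent.H6.S1.Rec
import Pool.Agent.H98.STB.VcI

/-!
# A target of slope one at a record: void

`void_one`: the event `ev_one` and the contradiction `void_evB` with `b = 1`. `void_aloO`: the same for
the natural labels of the output `AlO` of the alternative.
-/

set_option autoImplicit false

namespace Pool.S16

open Finset Real MvPolynomial
open Pool.Agent.H49.Ent Pool.Agent.H32.Dense Pool.STK Pool.KA Pool.KSAT Pool.K2S Pool.PB Pool.S6C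
open Pool.GEN Pool.RCD Pool.LA91 Pool.PKG Pool.CHT Pool.CHX
open Pool.GRD (LbP)
open Pool.ALT (Fml BlB xa ya AlO NzF)
open Pool.STB77 (NodF)
open Pool.STB82 (gjb)
open Pool.STB (LsN GrN nAA nWW nι nσ nι_le ball_zero ball_at ball_mono box_in nod_box lv_lin
  void_evB rows_rec alw_lab)

/-- **A target of slope one is void**, at a record, for an abstract family of labels with rows of
rate `(1 - h₀) log 2`. The coarse step is `y0`; the fine grid is `(n + 4) M''` to one coarse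
step. -/
theorem void_one (D : ℕ) (hD : 1 ≤ D) {h₀ y0 : ℝ} (hh0 : 0 < h₀) (hh1 : h₀ ≤ 1)
    (hy0 : 0 < y0) : ∃ (D' n : ℕ) (v s₁ : ℝ), D ≤ D' ∧ 0 < n ∧ 0 < v ∧ v ≤ y0 ∧
    0 < s₁ ∧ s₁ ≤ v ∧ ∀ Rg xq : ℝ, 0 ≤ xq → ∃ K₁ : ℝ, 1 ≤ K₁ ∧ ∀ {S : PCl 4} {al : ℝ}
    {g₀ : ℝ → ℝ} {P₀ : List (Fin 4) × Fin 4 → ℝ → ℝ → ℝ} {θ : ℝ}
    {P₂ : ℕ → List (Fin 4) × Fin 4 → ℝ → ℝ → ℝ} {θ₂ Eb e₂ : ℕ → ℝ}
    {c : ℕ → Fin 4} {Pt : ℝ → ℝ → ℝ} {r : ℝ → ℝ} {h Kn g : ℝ} {L T : ℕ → ℝ → ℝ → ℝ}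
    {Sl : ℕ → ℝ} {κ : ℕ → Kg} {G : Set ℝ} {S₀ N₀ : ℕ} {A V : ℕ → ℝ} {S₂ N' : ℕ} {V' : ℕ → ℝ}
    {K ε q t : ℝ}
    (_ : RecG S al g₀ P₀ θ P₂ θ₂ Eb e₂ c Pt r h Kn g L T Sl κ G S₀ N₀ A V S₂ N' V' K ε q t)
    (_ : K₁ ≤ K) (_ : 0 ≤ ε) (_ : 16 * ε ≤ v) (_ : Sl 1 = 1) (_ : Sl 3 = 1)
    {oW ρ : ℝ} {Ng P pc N M'' Nx : ℕ} {Ax Vx : ℕ → ℝ} (_ : |oW| ≤ Rg) (_ : ρ ≤ s₁)
    (_ : LsN oW y0 ρ Ng P Nx Ax Vx N₀ A V N' V' K)
    (_ : GrN y0 ρ Ng P pc N ((n + 4) * M''))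
    (_ : ∀ k < Ng + P + 2 + Nx, NodF S c 3 D L (Eb 3) (Eb 3) (nAA t q oW y0 ρ Ng P Ax k)
      (nWW t q oW ρ Ng P Vx k))
    {Db : ℕ} {oV : ℝ} {Ψ : Fml 4} {pN p p₂ yb : ℝ} (_ : Db ≤ D) (_ : oV ≤ oW)
    (_ : -K ≤ oV)
    (_ : ∀ (J : ℕ) (F : Fam 4 J) (A : F.Ω → Prop) (V : Type) (z : PtT F → V) (z' : LnT F → V)
      (G : V → MvPolynomial (Option (Fin 4)) ℝ), Ψ J F A V z z' G →
      LbP F ((range 3).image c) (c 3) D J ⌊(t + oV * q) * J⌋₊ ⌊pN * J⌋₊ A z z' G)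
    (_ : BlB S c 2 (c 3) (t + oV * q) (t + oW * q) Db Db p p₂ yb Ψ)
    (_ : ∃ χ : ℝ, 0 < χ ∧ Bas S (fun J F A => ∃ (P₁ : ℕ) (V₁ : Type)
      (z₁ : PtT F → V₁) (z₁' : LnT F → V₁) (G₁ : V₁ → MvPolynomial (Option (Fin 4)) ℝ),
      LbP F ((range 3).image c) (c 3) Db J ⌊(t + oW * q) * J⌋₊ P₁ A z₁ z₁' G₁ ∧
        (p + χ) * J ≤ P₁))
    (_ : ∃ χ : ℝ, 0 < χ ∧ Bas S (fun J F A => ∃ (P₁ : ℕ) (V₁ : Type)
      (z₁ : PtT F → V₁) (z₁' : LnT F → V₁) (G₁ : V₁ → MvPolynomial (Option (Fin 4)) ℝ),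
      LbP F ((range 2).image c) (c 2) Db J ⌊(t + oW * q) * J⌋₊ P₁ A z₁ z₁' G₁ ∧
        (p₂ + χ) * J ≤ P₁))
    {xx s₀ s sr : ℝ} (_ : 0 ≤ xx) (_ : xx ≤ xq * q)
    (_ : L 3 (t + oW * q) (t + oW * q) ≤ pN + xx)
    (_ : L 3 (t + oW * q) (t + oW * q) ≤ p + s₀)
    (_ : yb + L 3 (t + oW * q) (t + oW * q) ≤ L 2 (t + oW * q) (t + oW * q) + s₀)
    (_ : 0 ≤ s₀) (_ : 4 * ε * q ≤ s₀) (_ : 0 < sr) (_ : sr ≤ s₁) (_ : s = sr * q)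
    (_ : s₀ ≤ sr * q)
    (_ : ∀ (J : ℕ) (F : Fam 4 J) (A B : F.Ω → Prop) (V : Type) (z : PtT F → V)
      (z' : LnT F → V) (G : V → MvPolynomial (Option (Fin 4)) ℝ), Sub B A →
      Ψ J F A V z z' G → Ψ J F B V z z' G)
    (_ : Bas S (fun J F A => ∃ (V : Type) (z : PtT F → V) (z' : LnT F → V)
      (G : V → MvPolynomial (Option (Fin 4)) ℝ), Ψ J F A V z z' G))
    {rr dr : ℝ} (_ : 1 * (oW - oV) + 1 * y0 + y0 + 2 * ε ≤ rr) (_ : 0 ≤ dr)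
    (_ : 128 * (n + 4) * dr ≤ h₀ * y0 * q * Real.log 2)
    (_ : ∀ sa sb : ℝ, L 3 (t + oV * q) (t + oV * q) ≤ sa → sa ≤ sb →
      sb ≤ L 3 (t + oV * q) (t + oV * q) + rr * q → Bas S (fun J F A => ∀ (V : Type)
        (z : PtT F → V) (z' : LnT F → V) (G : V → MvPolynomial (Option (Fin 4)) ℝ),
        Ψ J F A V z z' G → CH (Pool.Agent.H49.Ent.cond F.p A True)
          (xa F (c 3) z' ⌊(t + oV * q) * J⌋₊ G sb)
          (ya F ((range 2).image c) (c 3) z' ⌊(t + oV * q) * J⌋₊ G sa) ≤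
          ((1 - h₀) * (sb - sa) * Real.log 2 + dr) * J))
    (_ : ∀ k < N', FulC S c 0 2 (t + V' k * q) (fun l => L l (t + V' k * q) (t + V' k * q))),
    False := by
  obtain ⟨C₀, C, D', C₁, K₂, hC₀, hDD', hDK, hev⟩ := ev_one D hD
  obtain ⟨Kd, hKd⟩ : ∃ Kd : ℕ, Kd = max K₂ 1 := ⟨_, rfl⟩
  obtain ⟨n, v, s₁, hn, hv0, hvy, hs₁, hsv, hvoid⟩ := void_evB Kd 1 C₀ C₁ C 0 le_rfl
    (by omega) hC₀ hh0 hh1 hy0
  refine ⟨D', n, v, s₁, hDD', hn, hv0, hvy, hs₁, hsv, fun Rg xq hxq => ?_⟩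
  obtain ⟨K₁, hK₁, hvoid⟩ := hvoid Rg xq hxq
  refine ⟨max K₁ (7 * C * y0 + y0 + xq), hK₁.trans (le_max_left _ _), ?_⟩
  intro S al g₀ P₀ θ P₂ θ₂ Eb e₂ c Pt r h Kn g L T Sl κ G S₀ N₀ A V S₂ N' V' K ε q t R hKK hε hεv
    S1 S3 oW ρ Ng P pc N M'' Nx Ax Vx hoW hρ H gr hnd Db oV Ψ pN p p₂ yb hDb hio hoV hΨ hbl hl3
    hl2 xx s₀ s sr hxx hxxq hx hlq hbly hs₀0 hs₀' hsr hsr1 hs hs0q hher
    hex rr dr hrr hdr hdr1 hrow hful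
  have hq := R.q0
  have hr := gr.r0
  have hM1 := gr.M1
  have hCn : (0 : ℝ) ≤ C := Nat.cast_nonneg C
  have hsp : 0 < s := by rw [hs]; positivity
  have hρq : 0 < ρ * q := by positivity
  have hyr : y0 = ((n : ℝ) + 4) * M'' * ρ := by
    have := gr.yr
    push_cast at this
    exact this
  have hNN : (n + 4) * M'' ≤ N := by
    rw [gr.hN]
    exact Nat.le_mul_of_pos_left _ (Nat.succ_pos _)
  have hAt : ∀ k ≤ N, nAA t q oW y0 ρ Ng P Ax (nι N ((n + 4) * M'') k) =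
      t + oW * q + k * ρ * q ∧ nWW t q oW ρ Ng P Vx (nι N ((n + 4) * M'') k) =
      t + oW * q + k * ρ * q := by
    intro k hk
    obtain ⟨h1, h2, -, -⟩ := ball_at R H gr (hk.trans (Nat.le_add_right _ _))
    rw [h1, h2, nι_le hk]
    constructor <;> ring
  have hNι : ∀ k ≤ N, nι N ((n + 4) * M'') k < Ng + P + 2 + Nx := fun k hk => by
    rw [nι_le hk]
    have := gr.NNg
    omega
  have hKy : 7 * C * y0 + y0 + xq ≤ K := (le_max_right _ _).trans hKK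
  obtain ⟨Ke, d, hKe, hd, hev⟩ := hev R S1 hε H gr hnd hDb hio hΨ hbl hl3 hl2 hxx hx hlq hbly
    hs₀0 hs₀' (v := 2 * ρ * q) (by linarith) le_rfl hsp (by
      have h2 : sr * q ≤ y0 * q :=
        mul_le_mul_of_nonneg_right (hsr1.trans (hsv.trans hvy)) hq.le
      have h3 : ρ * q ≤ y0 * q := mul_le_mul_of_nonneg_right (hρ.trans (hsv.trans hvy)) hq.le
      have h1 : (C : ℝ) * (s₀ + 4 * s + 2 * ρ * q) ≤ C * (7 * (y0 * q)) :=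
        mul_le_mul_of_nonneg_left (by rw [hs]; linarith) hCn
      have h4 : (N : ℝ) * (ρ * q) ≤ 2 * K * q := by
        have h5 : (N : ℝ) * ρ ≤ ((P + 1 : ℕ) : ℝ) * y0 := by
          have h6 : (N : ℝ) ≤ ((P + 1 : ℕ) : ℝ) * (((n + 4) * M'' : ℕ) : ℝ) := by
            have h7 : N ≤ (P + 1) * ((n + 4) * M'') := by
              rw [gr.hN]
              exact Nat.mul_le_mul_right _ (by have := gr.pP; omega)
            exact_mod_cast h7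
          calc (N : ℝ) * ρ ≤ ((P + 1 : ℕ) : ℝ) * (((n + 4) * M'' : ℕ) : ℝ) * ρ :=
                mul_le_mul_of_nonneg_right h6 hr.le
            _ = ((P + 1 : ℕ) : ℝ) * y0 := by
                rw [mul_assoc, ← gr.yr]
        have h6 : (N : ℝ) * ρ ≤ 2 * K := by linarith [H.o0, H.o1]
        have h7 := mul_le_mul_of_nonneg_right h6 hq.le
        linarith
      have h5 := mul_le_mul_of_nonneg_right hKy hq.le
      have e1 : (7 * C * y0 + y0 + xq) * q = C * (7 * (y0 * q)) + y0 * q + xq * q := by ring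
      rw [e1] at h5
      rw [hs] at h1 ⊢
      linarith) (N₁ := (n + 4) * M'') hNN hher hex
  refine hvoid R ((le_max_left _ _).trans hKK) hε hεv S1 (by rw [S3, Nat.cast_one]) (o0 := oW)
    (rho := ρ) (sr := sr)
    (s0 := s₀) (s := s) (w := 2 * ρ * q) (xx := xx) (M' := M'') hoW hsr hsr1 hs₀0 hs0q hs rfl hxx
    hxxq hr hρ hyr.symm (fun j hj => H.grid j (hj.trans (hNN.trans gr.NNg))) (oV := oV) (rr := rr)
    (dr := dr) (Ψ := Ψ) hoV hio (by rw [Nat.cast_one]; exact hrr) hdr hdr1 hher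
    (fun J F A V z z' G hG ω hω =>
      (hΨ J F A V z z' G hG).cls ω hω) hrow hful
    (d := fun k l => d (nι N ((n + 4) * M'') k) l) (d3 := d 0 3)
    (fun k hk l hl => ?_) ?_
    (Ab := fun J k => ⌊nAA t q oW y0 ρ Ng P Ax (nι N ((n + 4) * M'') k) * (J : ℝ)⌋₊)
    (g' := fun J k l => ⌊(L l (nAA t q oW y0 ρ Ng P Ax (nι N ((n + 4) * M'') k))
      (nWW t q oW ρ Ng P Vx (nι N ((n + 4) * M'') k)) - d (nι N ((n + 4) * M'') k) l) * (J : ℝ)⌋₊)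
    (fun J k hk => ?_) (fun J k hk l hl => ?_) (c₀ := 1 / (4 * Ke)) (by positivity)
    (Nv := N) ?_
  · obtain ⟨h1, h2, -⟩ := hd _ (hNι k (hk.trans hNN)) l hl.le
    exact ⟨h1.le, h2⟩
  · obtain ⟨h1, h2, -⟩ := hd 0 (by omega) 3 le_rfl
    exact ⟨h1.le, h2⟩
  · show ⌊nAA t q oW y0 ρ Ng P Ax (nι N ((n + 4) * M'') k) * (J : ℝ)⌋₊ = _
    rw [(hAt k (hk.trans hNN)).1]
  · show ⌊(L l (nAA t q oW y0 ρ Ng P Ax (nι N ((n + 4) * M'') k))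
      (nWW t q oW ρ Ng P Vx (nι N ((n + 4) * M'') k)) - d (nι N ((n + 4) * M'') k) l) *
        (J : ℝ)⌋₊ = _
    rw [(hAt k (hk.trans hNN)).1, (hAt k (hk.trans hNN)).2]
  · intro w' ε' hε' hw' ⟨J₀, hJ₀⟩
    exact hev (K' := Kd) (n := n) (by rw [hKd]; exact le_max_left _ _)
      (kk := fun J => ⌊y0 / (n + 4) * q * J⌋₊) (yy := fun J => ⌊v * q * J⌋₊)
      (x := fun J => ⌊v * q * J⌋₊)
      (e₁' := fun J => C₀ * (⌊(s₀ + 3 * s) * J⌋₊ + 1) + ⌊Eb 3 * J⌋₊)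
      (e₁ := fun J => ⌊e₂ 3 * J⌋₊ - 1)
      (e₂' := fun J => C₀ * (⌊(s₀ + 3 * s) * J⌋₊ + 1) + ⌊Eb 3 * J⌋₊ + ⌊v * q * J⌋₊ +
              2 * ⌊v * q * J⌋₊ + 6)
      (st := fun J => C₁ * (C₀ * (⌊(s₀ + 3 * s) * J⌋₊ + 1) + (⌊2 * ρ * q * J⌋₊ + 1) + 1))
      (lz := fun J => C * (⌊(s₀ + 3 * s) * J⌋₊ + ⌊2 * ρ * q * J⌋₊ + 1) + ⌊(Eb 3 + s) * J⌋₊ +
        ⌊xx * J⌋₊ + nlp (fun j => if j < 3 then
          ⌊(L j (nAA t q oW y0 ρ Ng P Ax (nι N ((n + 4) * M'') 0))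
            (nWW t q oW ρ Ng P Vx (nι N ((n + 4) * M'') 0)) -
              d (nι N ((n + 4) * M'') 0) j) * (J : ℝ)⌋₊ else
                ⌊(L 3 (t + oW * q) (t + oW * q) - d 0 3) * J⌋₊) 0 3)
      (jb := gjb (y0 / (n + 4)) ρ) (ji := fun i => gjb (y0 / (n + 4)) ρ (i + 1)) hε' hw'
      (J₀ := J₀) (fun J hJ => (hJ₀ J hJ).1)

/-- **A target of slope one is void** at a record, for the natural labels. -/
theorem void_aloO (D : ℕ) (hD : 1 ≤ D) {h₀ y0 : ℝ} (hh0 : 0 < h₀) (hh1 : h₀ ≤ 1)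
    (hy0 : 0 < y0) : ∃ (D' n : ℕ) (v s₁ : ℝ), D ≤ D' ∧ 0 < n ∧ 0 < v ∧ v ≤ y0 ∧
    0 < s₁ ∧ s₁ ≤ v ∧ ∀ Rg xq : ℝ, 0 ≤ xq → ∃ K₁ : ℝ, 1 ≤ K₁ ∧ ∀ {S : PCl 4} {al : ℝ}
    {g₀ : ℝ → ℝ} {P₀ : List (Fin 4) × Fin 4 → ℝ → ℝ → ℝ} {θ : ℝ}
    {P₂ : ℕ → List (Fin 4) × Fin 4 → ℝ → ℝ → ℝ} {θ₂ Eb e₂ : ℕ → ℝ}
    {c : ℕ → Fin 4} {Pt : ℝ → ℝ → ℝ} {r : ℝ → ℝ} {h Kn g : ℝ} {L T : ℕ → ℝ → ℝ → ℝ}
    {Sl : ℕ → ℝ} {κ : ℕ → Kg} {G : Set ℝ} {S₀ N₀ : ℕ} {A V : ℕ → ℝ} {S₂ N' : ℕ} {V' : ℕ → ℝ}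
    {K ε q t : ℝ}
    (_ : RecG S al g₀ P₀ θ P₂ θ₂ Eb e₂ c Pt r h Kn g L T Sl κ G S₀ N₀ A V S₂ N' V' K ε q t)
    (_ : K₁ ≤ K) (_ : 0 ≤ ε) (_ : 16 * ε ≤ v) (_ : Sl 1 = 1) (_ : Sl 3 = 1)
    {oW ρ : ℝ} {Ng P pc N M'' Nx : ℕ} {Ax Vx : ℕ → ℝ} (_ : |oW| ≤ Rg) (_ : ρ ≤ s₁)
    (_ : LsN oW y0 ρ Ng P Nx Ax Vx N₀ A V N' V' K)
    (_ : GrN y0 ρ Ng P pc N ((n + 4) * M''))
    (_ : ∀ k < Ng + P + 2 + Nx, NodF S c 3 D L (Eb 3) (Eb 3) (nAA t q oW y0 ρ Ng P Ax k)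
      (nWW t q oW ρ Ng P Vx k))
    {Db i j : ℕ} {Rr δ lam rr ℓ g₂ X η μ e₀ π₀ : ℝ} {Ψ : Fml 4}
    {w p₁ p₂ eN uN pN pa₁ pa₂ ea ua pa : ℝ}
    (_ : AlO (r₀ := 2) S c L Db N' V' i j Rr h₀ δ lam rr ℓ g₂ X η μ e₀ π₀ q t Ψ w p₁ p₂ eN uN pN
      pa₁ pa₂ ea ua pa) (_ : Db * max 1 Db ≤ D) (_ : 0 < η) (_ : 0 ≤ X) (_ : 0 ≤ g₂)
    (_ : V' i + g₂ ≤ oW) (_ : -Rr ≤ oW) (_ : oW + g₂ ≤ Rr)
    (_ : X * q ≤ μ) (_ : 0 ≤ μ) (_ : ∀ k < N', X * q ≤ L 2 (t + V' k * q) (t + V' k * q) ∧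
      e₀ + L 3 (t + V' k * q) (t + V' k * q) < 1 ∧
      L 3 (t + V' k * q) (t + V' k * q) + L 2 (t + V' k * q) (t + V' k * q) + X * q ≤ 1 + π₀)
    {s₀ s sr : ℝ} (_ : |V' i| ≤ K)
    (_ : 0 ≤ δ * lam) (_ : 1 * (oW - V' i) + δ * lam + 2 * ε ≤ xq)
    (_ : (X + 2 * η + 4 * ε) * q ≤ s₀) (_ : 4 * (η * q) ≤ t - K * q)
    (_ : 0 < sr) (_ : sr ≤ s₁) (_ : s = sr * q) (_ : s₀ ≤ sr * q)
    (_ : 1 * (oW - V' i) + 1 * y0 + y0 + 2 * ε ≤ rr)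
    (_ : 64 * (n + 4) * (δ * lam) ≤ h₀ * y0 * Real.log 2)
    (_ : ∀ k < N', FulC S c 0 2 (t + V' k * q) (fun l => L l (t + V' k * q) (t + V' k * q))),
    False := by
  obtain ⟨D', n, v, s₁, hDD', hn, hv0, hvy, hs₁, hsv, hcore⟩ := void_one D hD hh0 hh1 hy0
  refine ⟨D', n, v, s₁, hDD', hn, hv0, hvy, hs₁, hsv, fun Rg xq hxq => ?_⟩
  obtain ⟨K₁, hK₁, hcore⟩ := hcore Rg xq hxq
  refine ⟨K₁, hK₁, ?_⟩
  intro S al g₀ P₀ θ P₂ θ₂ Eb e₂ c Pt r h Kn g L T Sl κ G S₀ N₀ A V S₂ N' V' K ε q t R hKK hε hεv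
    S1 S3 oW ρ Ng P pc N M'' Nx Ax Vx hoW hρ H gr hnd Db i j Rr δ lam rr ℓ g₂ X η μ e₀ π₀ Ψ w
    p₁ p₂ eN uN pN pa₁ pa₂ ea ua pa O hDb hη hX hg₂ hio hRo hRp hXμ hμ hmar s₀ s sr hVi hδl hx
    hs₀ hηt hsr hsr1 hs hs0q hrr hdl hful
  have hq := R.q0
  have hL3 : ∀ x, L (2 + 1) x x = L 3 x x := fun _ => rfl
  have hηq : 0 < η * q := by positivity
  have hεq : 0 ≤ ε * q := by positivity
  have hXq : 0 ≤ X * q := by positivity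
  have hr := gr.r0
  have hy := gr.y0
  have hn4 : (0 : ℝ) < (n : ℝ) + 4 := by positivity
  have hlog : 0 < Real.log 2 := Real.log_pos one_lt_two
  obtain ⟨z1, z2, z3, z4⟩ := ball_zero R H gr
  obtain ⟨w1, w2, w3⟩ := box_in R z3 z4
  have h34 : (3 : ℕ) < 4 := by norm_num
  -- the data at the ball
  obtain ⟨k', hk', e1⟩ := H.grid 0 (Nat.zero_le _)
  rw [Nat.cast_zero, zero_mul, add_zero] at e1
  have hΨ : ∀ (J : ℕ) (F : Fam 4 J) (A : F.Ω → Prop) (V : Type) (z : PtT F → V) (z' : LnT F → V)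
      (G : V → MvPolynomial (Option (Fin 4)) ℝ),
      NzF Ψ c 2 (c 3) Db Db Db w (t + V' i * q) p₁ p₂ eN uN pN J F A V z z' G →
      LbP F ((range 3).image c) (c 3) D J ⌊(t + V' i * q) * J⌋₊ ⌊pN * J⌋₊ A z z' G := by
    intro J F A V z z' G hG
    have h1 := Pool.GRD.LbP.of hG.lb
    rw [max_self] at h1
    exact { h1 with deg := fun v => (h1.deg v).trans hDb }
  obtain ⟨v1, -, -⟩ := box_in R (o := V' i) (by linarith [(abs_le.1 hVi).1]) (abs_le.1 hVi).2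
  have hVo : 0 ≤ 1 * (oW - V' i) := by linarith
  have hs4 : 4 * ε * q ≤ s₀ := by
    have : (X + 2 * η + 4 * ε) * q = X * q + 2 * (η * q) + 4 * ε * q := by ring
    linarith
  have hXs : X * q + 2 * (η * q) ≤ s₀ := by
    have : (X + 2 * η + 4 * ε) * q = X * q + 2 * (η * q) + 4 * (ε * q) := by ring
    linarith
  have hs00 : 0 ≤ s₀ := by linarith
  obtain ⟨E', Eu, hl⟩ := O.lab k' hk'
  rw [e1] at hl
  have dd3 := R.low_at (i := 3) (by norm_num) (a := t + oW * q) (w := t + oW * q)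
      w2.le le_rfl w3.le
  have dd2 := R.low_at (i := 2) (by norm_num) (a := t + oW * q) (w := t + oW * q)
      w2.le le_rfl w3.le
  have d3 := (abs_le.1 w1).1
  obtain ⟨hlb3, hlb2⟩ := alw_lab (p := L 3 (t + oW * q) (t + oW * q) - 2 * (η * q))
      (p₂ := L 2 (t + oW * q) (t + oW * q) - 2 * (η * q)) hl hηq
      (by linarith [hL3 (t + oW * q)]) (by linarith) (by linarith) (by linarith)
  have hblb : BlB S c 2 (c 3) (t + V' i * q) (t + oW * q) Db Db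
      (L 3 (t + oW * q) (t + oW * q) - 2 * (η * q)) (L 2 (t + oW * q) (t + oW * q) - 2 * (η * q))
      (L 2 (t + oW * q) (t + oW * q) - L 3 (t + oW * q) (t + oW * q) + X * q)
      (NzF Ψ c 2 (c 3) Db Db Db w (t + V' i * q) p₁ p₂ eN uN pN) := by
    obtain ⟨c1, c2, c3⟩ := hmar _ hk'
    have h5 := O.blb k' hk' (by rw [e1]; exact hio) (by
      rw [e1]
      exact abs_le.2 ⟨hRo, by linarith⟩) (by rw [e1]; exact hRp) hXμ c1 c2 c3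
    rw [e1] at h5
    exact h5
  refine hcore R hKK hε hεv S1 S3 hoW hρ H gr hnd (Db := Db) (oV := V' i)
    (Ψ := NzF Ψ c 2 (c 3) Db Db Db w (t + V' i * q) p₁ p₂ eN uN pN) (pN := pN)
    ((Nat.le_mul_of_pos_right _ (by simp)).trans hDb) (by linarith)
    (by linarith [(abs_le.1 hVi).1]) hΨ hblb hlb3 hlb2
    (xx := xq * q) (s₀ := s₀) (s := s) (sr := sr) (by positivity) le_rfl ?_
    (by linarith) (by linarith) hs00 hs4 hsr hsr1 hs hs0q ?_ ?_ (rr := rr)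
    (dr := δ * (lam * q) / 4 + h₀ * y0 * q * Real.log 2 / (256 * (n + 4)))
    hrr ?_ ?_ (fun sa sb h1 h2 h3 => ?_) hful
  · have h1 := abs_le.1 (lv_lin R h34 v1 w1)
    rw [S3] at h1
    have h2 := O.pN1
    have h3 : L (2 + 1) (t + V' i * q) (t + V' i * q) = L 3 (t + V' i * q) (t + V' i * q) := rfl
    rw [h3] at h2
    have h4 : δ * lam * q / 8 ≤ δ * lam * q := by
      have : 0 ≤ δ * lam * q := by positivity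
      linarith
    have h5 := mul_le_mul_of_nonneg_right hx hq.le
    have e1 : (1 * (oW - V' i) + δ * lam + 2 * ε) * q =
      1 * (t + oW * q - (t + V' i * q)) + δ * lam * q + 2 * (ε * q) := by ring
    rw [e1] at h5
    linarith [h1.2]
  · rintro J F A B V z z' Gz hBA ⟨V₀, V₁, V₂, z₀, z₀', G₀, P₁, z₁, z₁', G₁, P₂', z₂, z₂', H', f,
      hΨ', hN⟩
    exact ⟨V₀, V₁, V₂, z₀, z₀', G₀, P₁, z₁, z₁', G₁, P₂', z₂, z₂', H', f,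
      (O.alp 1 (by linarith) le_rfl).hs J F A B V₀ z₀ z₀' G₀ hBA hΨ', hN.sub hBA⟩
  · refine Bas.mono 0 O.nzq ?_
    rintro J - F A ⟨V, z, z', Gz, V₀, V₁, V₂, z₀, z₀', G₀, P₁, z₁, z₁', G₁, P₂', z₂, z₂', H', f,
      hΨ', hN, -⟩
    exact ⟨V, z, z', Gz, V₀, V₁, V₂, z₀, z₀', G₀, P₁, z₁, z₁', G₁, P₂', z₂, z₂', H', f, hΨ', hN⟩
  · have h3 : δ * (lam * q) = δ * lam * q := by ring
    rw [h3]
    positivity
  · have h2 := mul_le_mul_of_nonneg_right hdl hq.le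
    have e1 : 128 * ((n : ℝ) + 4) * (δ * (lam * q) / 4 +
        h₀ * y0 * q * Real.log 2 / (256 * (n + 4))) =
        32 * (n + 4) * (δ * lam) * q + h₀ * y0 * q * Real.log 2 / 2 := by
      field_simp
      ring
    rw [e1]
    linarith
  · refine Bas.mono 0 (rows_rec R.pos O hμ (sa := sa) (sb := sb)
      (δ' := h₀ * y0 * q * Real.log 2 / (256 * (n + 4))) h1 h2 h3 (by positivity)) ?_
    intro J _ F A hA V z z' Gz hG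
    refine (hA V z z' Gz hG).trans (le_of_eq ?_)
    ring

end Pool.S16
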